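import Mathlib

/-!
# Circumscribed DL-Lite_bool knowledge bases

Definitions for MP_9ab704_lc. Concept names, role names and individual names are natural numbers.
-/

set_option autoImplicit false

namespace Pool.Agent.Q230.DLC

/-- A role: a role name `(P, false)` or its inverse `(P, true)`. -/
abbrev Role := ℕ × Bool

/-- Concepts of `DL-Lite_bool`. -/
inductive Cpt : Type
  | bot : Cpt
  | name (A : ℕ) : Cpt
  | ex (R : Role) : Cpt
  | neg (C : Cpt) : Cpt
  | inter (C D : Cpt) : Cpt

/-- A knowledge base: concept inclusions, functionality assertions, role inclusions, concept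
assertions `(A, a)` and role assertions `(P, a, b)`. -/
structure KB : Type where
  cis : List (Cpt × Cpt)
  funcs : List Role
  ris : List (Role × Role)
  cas : List (ℕ × ℕ)
  ras : List (ℕ × ℕ × ℕ)

/-- A concept name `(false, A)` or a role name `(true, P)`. -/
abbrev Sym := Bool × ℕ

/-- A circumscription pattern: the minimized names, the fixed names (all others are varying), and
the pairs `(p, q)` with `p ≺ q`. -/
structure Pat : Type where
  mini : List Sym
  fixd : List Sym
  prec : List (Sym × Sym)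

/-- No name is both minimized and fixed, and `≺` is a strict partial order on the minimized
names. -/
structure Pat.Valid (P : Pat) : Prop where
  disj : ∀ p ∈ P.mini, p ∉ P.fixd
  dom : ∀ x ∈ P.prec, x.1 ∈ P.mini ∧ x.2 ∈ P.mini
  irrefl : ∀ p, (p, p) ∉ P.prec
  trans : ∀ p q r, (p, q) ∈ P.prec → (q, r) ∈ P.prec → (p, r) ∈ P.prec

/-- An interpretation with domain `Δ`. -/
structure Interp (Δ : Type) : Type where
  cn : ℕ → Δ → Prop
  rn : ℕ → Δ → Δ → Prop
  ind : ℕ → Δ

variable {Δ : Type}

/-- The interpretation of a role. -/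
def Interp.role (I : Interp Δ) (R : Role) (x y : Δ) : Prop :=
  if R.2 then I.rn R.1 y x else I.rn R.1 x y

/-- The element belongs to the concept. -/
def Interp.sat (I : Interp Δ) : Cpt → Δ → Prop
  | .bot, _ => False
  | .name A, x => I.cn A x
  | .ex R, x => ∃ y, I.role R x y
  | .neg C, x => ¬ I.sat C x
  | .inter C D, x => I.sat C x ∧ I.sat D x

/-- The individual name occurs in the knowledge base. -/
def KB.Occ (K : KB) (a : ℕ) : Prop :=
  (∃ A, (A, a) ∈ K.cas) ∨ ∃ P b, (P, a, b) ∈ K.ras ∨ (P, b, a) ∈ K.ras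

/-- Models of a knowledge base, with the unique name assumption. -/
structure Interp.Model (I : Interp Δ) (K : KB) : Prop where
  una : ∀ a b, K.Occ a → K.Occ b → I.ind a = I.ind b → a = b
  cis : ∀ c ∈ K.cis, ∀ x, I.sat c.1 x → I.sat c.2 x
  funcs : ∀ R ∈ K.funcs, ∀ x y z, I.role R x y → I.role R x z → y = z
  ris : ∀ c ∈ K.ris, ∀ x y, I.role c.1 x y → I.role c.2 x y
  cas : ∀ c ∈ K.cas, I.cn c.1 (I.ind c.2)
  ras : ∀ c ∈ K.ras, I.rn c.1 (I.ind c.2.1) (I.ind c.2.2)

/-- `p^I ⊆ p^J`. -/
def Sub (I J : Interp Δ) (p : Sym) : Prop :=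
  if p.1 then ∀ x y, I.rn p.2 x y → J.rn p.2 x y else ∀ x, I.cn p.2 x → J.cn p.2 x

/-- `I <_CP J`. -/
def Less (P : Pat) (I J : Interp Δ) : Prop :=
  I.ind = J.ind ∧ (∀ p ∈ P.fixd, Sub I J p ∧ Sub J I p) ∧
    (∀ p ∈ P.mini, ¬ Sub I J p → ∃ q, (q, p) ∈ P.prec ∧ Sub I J q ∧ ¬ Sub J I q) ∧
    ∃ p ∈ P.mini, (Sub I J p ∧ ¬ Sub J I p) ∧
      ∀ q, (q, p) ∈ P.prec → Sub I J q ∧ Sub J I q

/-- `I` is a model of the circumscribed knowledge base. -/
def Circ (P : Pat) (K : KB) (I : Interp Δ) : Prop :=
  I.Model K ∧ ∀ J : Interp Δ, Less P J I → ¬ J.Model K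

/-- The concept is satisfiable relative to the circumscribed knowledge base. -/
def CSat (C : Cpt) (K : KB) (P : Pat) : Prop :=
  ∃ (Δ : Type) (I : Interp Δ), Circ P K I ∧ ∃ x, I.sat C x

/-- The Gödel number of a concept. -/
def Cpt.code : Cpt → ℕ
  | .bot => 0
  | .name A => 4 * A + 1
  | .ex R => 4 * (2 * R.1 + R.2.toNat) + 2
  | .neg C => 4 * C.code + 3
  | .inter C D => 4 * Nat.pair C.code D.code + 4

/-- Inputs: a concept (Gödel number), concept inclusions (pairs of Gödel numbers), functionality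
assertions, role inclusions, assertions, minimized names, fixed names, `≺`. -/
abbrev Inp := ℕ × List (ℕ × ℕ) × List Role × List (Role × Role) × List (ℕ × ℕ) ×
  List (ℕ × ℕ × ℕ) × List Sym × List Sym × List (Sym × Sym)

/-- The input for a concept, a knowledge base and a pattern. -/
def inp (C : Cpt) (K : KB) (P : Pat) : Inp :=
  (C.code, K.cis.map (fun c => (c.1.code, c.2.code)), K.funcs, K.ris, K.cas, K.ras,
    P.mini, P.fixd, P.prec)

/-- The algorithm `g` decides concept satisfiability relative to circumscribed knowledge bases in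
the class `L`, for arbitrary circumscription patterns. -/
def Decides (L : KB → Prop) (g : Inp → Bool) : Prop :=
  ∀ (C : Cpt) (K : KB) (P : Pat), L K → P.Valid → (g (inp C K P) = true ↔ CSat C K P)

/-- Knowledge bases of `DL-Lite_bool^F`: no role inclusions. -/
def IsF (K : KB) : Prop := K.ris = []

/-- Knowledge bases of `DL-Lite_bool^R`: no functionality assertions. -/
def IsR (K : KB) : Prop := K.funcs = []

/-- Knowledge bases of `DL-Lite_bool`: neither. -/
def IsB (K : KB) : Prop := K.funcs = [] ∧ K.ris = []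

end Pool.Agent.Q230.DLC
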