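import Mathlib
import Pool.Agent.Helper948.Tile.Enc
import Pool.Agent.Helper948.Tile.TMc

/-!
# Tilings of the upper half plane with a given square at the origin

The coloured squares are those of `Pool.Agent.Helper948.Tile.TM`, without the squares on the border.
-/

set_option autoImplicit false
set_option linter.unusedSectionVars false

namespace Pool.Agent.Q230.DLC

open Turing Pool.Agent.Helper948 Pool.Agent.Helper948.Tile

/-- A coloured square: colours of the east, north, west and south side. -/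
abbrev Sq := ℕ × ℕ × ℕ × ℕ

/-- There is a tiling of the upper half plane with the given square at the origin. -/
def Til (W : List Sq) (q0 : Sq) : Prop :=
  ∃ τ : ℤ → ℕ → Sq, τ 0 0 = q0 ∧ (∀ i j, τ i j ∈ W) ∧
    (∀ i j, (τ i j).1 = (τ (i + 1) j).2.2.1) ∧ ∀ i j, (τ i j).2.1 = (τ i (j + 1)).2.2.2

variable {Γ Λ : Type} [Inhabited Γ] [Inhabited Λ]

section

variable {M : TM0.Machine Γ Λ} {l : List Γ} {e w : HC Λ} {n : VC Γ Λ} {s : Option (VC Γ Λ)}

theorem WT_init (h : WT M l (some e) (some n) (some w) s) {i : ℕ} (hw : w = .init i)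
    (hi : 1 ≤ i) : (i < l.length ∧ e = .init (i + 1) ∧ n = .sy (l.getI i)) ∨
      (i = l.length ∧ e = .init i ∧ n = .sy default) := by
  cases h with
  | blankL => simp only [HC.init.injEq] at hw; omega
  | first => simp only [HC.init.injEq] at hw; omega
  | sym j h1 h2 =>
    simp only [HC.init.injEq] at hw
    subst hw
    exact Or.inl ⟨h2, rfl, rfl⟩
  | blankR =>
    simp only [HC.init.injEq] at hw
    subst hw
    exact Or.inr ⟨rfl, rfl, rfl⟩
  | keep a => simp at hw
  | inL q a => simp at hw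
  | inR q a => simp at hw
  | wr q a q' b h => simp at hw
  | mvR q a q' h => simp at hw
  | mvL q a q' h => simp at hw

theorem WT_initL (h : WT M l (some e) (some n) (some w) s) (he : e = .init 0)
    (hl : 0 < l.length) : w = .init 0 ∧ n = .sy default := by
  cases h with
  | blankL => exact ⟨rfl, rfl⟩
  | first => simp at he
  | sym j h1 h2 => simp at he
  | blankR => simp only [HC.init.injEq] at he; omega
  | keep a => simp at he
  | inL q a => simp at he
  | inR q a => simp at he
  | wr q a q' b h => simp at he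
  | mvR q a q' h => simp at he
  | mvL q a q' h => simp at he

theorem WT_sy (h : WT M l (some e) (some n) (some w) s) {a : Γ} (hs : s = some (.sy a)) :
    (e = .m0 ∧ n = .sy a ∧ w = .m0) ∨ (∃ q, e = .m0 ∧ n = .hd q a ∧ w = .mr q) ∨
      (∃ q, e = .ml q ∧ n = .hd q a ∧ w = .m0) := by
  cases h with
  | blankL => simp at hs
  | first => simp at hs
  | sym j h1 h2 => simp at hs
  | blankR => simp at hs
  | keep a =>
    simp only [Option.some.injEq, VC.sy.injEq] at hs
    subst hs
    exact Or.inl ⟨rfl, rfl, rfl⟩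
  | inL q a =>
    simp only [Option.some.injEq, VC.sy.injEq] at hs
    subst hs
    exact Or.inr (Or.inl ⟨q, rfl, rfl, rfl⟩)
  | inR q a =>
    simp only [Option.some.injEq, VC.sy.injEq] at hs
    subst hs
    exact Or.inr (Or.inr ⟨q, rfl, rfl, rfl⟩)
  | wr q a q' b h => simp at hs
  | mvR q a q' h => simp at hs
  | mvL q a q' h => simp at hs

theorem WT_hd (h : WT M l (some e) (some n) (some w) s) {q : Λ} {a : Γ}
    (hs : s = some (.hd q a)) :
    (∃ q' b, M q a = some (q', .write b) ∧ e = .m0 ∧ n = .hd q' b ∧ w = .m0) ∨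
      (∃ q', M q a = some (q', .move .right) ∧ e = .mr q' ∧ n = .sy a ∧ w = .m0) ∨
      (∃ q', M q a = some (q', .move .left) ∧ e = .m0 ∧ n = .sy a ∧ w = .ml q') := by
  cases h with
  | blankL => simp at hs
  | first => simp at hs
  | sym j h1 h2 => simp at hs
  | blankR => simp at hs
  | keep a => simp at hs
  | inL q a => simp at hs
  | inR q a => simp at hs
  | wr q1 a1 q' b h =>
    simp only [Option.some.injEq, VC.hd.injEq] at hs
    obtain ⟨rfl, rfl⟩ := hs
    exact Or.inl ⟨q', b, h, rfl, rfl, rfl⟩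
  | mvR q1 a1 q' h =>
    simp only [Option.some.injEq, VC.hd.injEq] at hs
    obtain ⟨rfl, rfl⟩ := hs
    exact Or.inr (Or.inl ⟨q', h, rfl, rfl, rfl⟩)
  | mvL q1 a1 q' h =>
    simp only [Option.some.injEq, VC.hd.injEq] at hs
    obtain ⟨rfl, rfl⟩ := hs
    exact Or.inr (Or.inr ⟨q', h, rfl, rfl, rfl⟩)

end

/-- The tape in absolute coordinates. -/
def RepZ (c : TM0.Cfg Γ Λ) (F : ℤ → Γ) (pos : ℤ) : Prop :=
  ∀ z : ℤ, c.Tape.nth (z - pos) = F z

theorem init_repZ (l : List Γ) :
    RepZ (TM0.init (Λ := Λ) l) (fun z => if z < 0 then default else l.getI z.toNat) 0 := by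
  intro z
  simp only
  by_cases hz : z < 0
  · rw [if_pos hz]
    obtain ⟨m, hm⟩ : ∃ m : ℕ, z = -(m : ℤ) ∧ 0 < m := ⟨(-z).toNat, by omega, by omega⟩
    have h := init_rep (Λ := Λ) l m 0
    simp only [Nat.cast_zero, hm.2, if_true] at h
    rw [show z - 0 = 0 - (m : ℤ) by omega]
    exact h
  · rw [if_neg hz]
    have h := init_rep (Λ := Λ) l 0 z.toNat
    simp only [Nat.not_lt_zero, if_false, Nat.sub_zero] at h
    rw [← h]
    congr 1
    omega

/-- An array of coloured squares on the upper half plane. -/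
structure Arz (M : TM0.Machine Γ Λ) (l : List Γ) (e w : ℤ → ℕ → HC Λ) (n : ℤ → ℕ → VC Γ Λ)
    (s : ℤ → ℕ → Option (VC Γ Λ)) : Prop where
  wt : ∀ i j, WT M l (some (e i j)) (some (n i j)) (some (w i j)) (s i j)
  hH : ∀ i j, e i j = w (i + 1) j
  hV : ∀ i j, s i (j + 1) = some (n i j)
  e0 : e 0 0 = .init 1
  n0 : n 0 0 = .hd default (l.getI 0)
  w0 : w 0 0 = .init 0

/-- The row contains the configuration. -/
def Line (c : TM0.Cfg Γ Λ) (n : ℤ → VC Γ Λ) : Prop :=
  ∃ (F : ℤ → Γ) (pos : ℤ), RepZ c F pos ∧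
    ∀ z, n z = if z = pos then .hd c.q (F pos) else .sy (F z)

section

variable {M : TM0.Machine Γ Λ} {l : List Γ} {e w : ℤ → ℕ → HC Λ} {n : ℤ → ℕ → VC Γ Λ}
  {s : ℤ → ℕ → Option (VC Γ Λ)}

theorem Arz.hH' (h : Arz M l e w n s) (i : ℤ) (j : ℕ) : w i j = e (i - 1) j := by
  rw [h.hH, show i - 1 + 1 = i by ring]

theorem Arz.line0 (h : Arz M l e w n s) (hl : 0 < l.length) :
    Line (TM0.init l) (fun z => n z 0) := by
  refine ⟨_, 0, init_repZ l, ?_⟩
  have hR : ∀ k : ℕ, e (k : ℤ) 0 = .init (min (k + 1) l.length) ∧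
      (0 < k → n (k : ℤ) 0 = .sy (l.getI k)) := by
    intro k
    induction k with
    | zero =>
      refine ⟨?_, fun h => absurd h (by omega)⟩
      rw [Nat.cast_zero, h.e0, show min (0 + 1) l.length = 1 by omega]
    | succ k ih =>
      have h1 := h.wt ((k + 1 : ℕ) : ℤ) 0
      have h2 : w ((k + 1 : ℕ) : ℤ) 0 = .init (min (k + 1) l.length) := by
        rw [h.hH', show ((k + 1 : ℕ) : ℤ) - 1 = (k : ℤ) by push_cast; ring, ih.1]
      rcases WT_init h1 h2 (by omega) with ⟨g1, g2, g3⟩ | ⟨g1, g2, g3⟩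
      · have e1 : min (k + 1) l.length = k + 1 := by omega
        rw [e1] at g2 g3
        refine ⟨by rw [g2]; congr 1; omega, fun _ => g3⟩
      · refine ⟨by rw [g2]; congr 1; omega, fun _ => ?_⟩
        rw [g3, List.getI_eq_default _ (by omega)]
  have hL : ∀ k : ℕ, w (-(k : ℤ)) 0 = .init 0 ∧ (0 < k → n (-(k : ℤ)) 0 = .sy default) := by
    intro k
    induction k with
    | zero =>
      refine ⟨?_, fun h => absurd h (by omega)⟩
      rw [Nat.cast_zero, neg_zero, h.w0]
    | succ k ih =>
      have h1 := h.wt (-((k + 1 : ℕ) : ℤ)) 0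
      have h2 : e (-((k + 1 : ℕ) : ℤ)) 0 = .init 0 := by
        rw [h.hH, show -((k + 1 : ℕ) : ℤ) + 1 = -(k : ℤ) by push_cast; ring, ih.1]
      obtain ⟨g1, g2⟩ := WT_initL h1 h2 hl
      exact ⟨g1, fun _ => g2⟩
  intro z
  simp only
  by_cases hz : z = 0
  · subst hz
    rw [if_pos rfl, h.n0]
    simp only [lt_irrefl, if_false, Int.toNat_zero]
    rfl
  · rw [if_neg hz]
    by_cases hz2 : z < 0
    · rw [if_pos hz2]
      obtain ⟨k, hk, hk0⟩ : ∃ k : ℕ, z = -(k : ℤ) ∧ 0 < k := ⟨(-z).toNat, by omega, by omega⟩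
      rw [hk]
      exact (hL k).2 hk0
    · rw [if_neg hz2]
      obtain ⟨k, hk, hk0⟩ : ∃ k : ℕ, z = (k : ℤ) ∧ 0 < k := ⟨z.toNat, by omega, by omega⟩
      rw [hk, Int.toNat_natCast]
      exact (hR k).2 hk0

theorem RepZ.head {c : TM0.Cfg Γ Λ} {F : ℤ → Γ} {pos : ℤ} (h : RepZ c F pos) :
    c.Tape.head = F pos := by
  rw [← h pos, sub_self, Tape.nth_zero]

theorem Arz.step (h : Arz M l e w n s) {c : TM0.Cfg Γ Λ} {j : ℕ}
    (hc : Line c (fun z => n z j)) :
    ∃ c', TM0.step M c = some c' ∧ Line c' (fun z => n z (j + 1)) := by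
  obtain ⟨F, pos, hrep, hrow⟩ := hc
  simp only at hrow
  have hhead := hrep.head
  have hs : ∀ z, s z (j + 1) = some (if z = pos then .hd c.q (F pos) else .sy (F z)) := by
    intro z
    rw [h.hV, hrow]
  have hne : ∀ z, z ≠ pos → s z (j + 1) = some (.sy (F z)) := fun z hz => by
    rw [hs, if_neg hz]
  have hpos : s pos (j + 1) = some (.hd c.q (F pos)) := by rw [hs, if_pos rfl]
  have hmr : ∀ z q, w z (j + 1) = .mr q → z - 1 = pos := by
    intro z q hw
    by_contra hz
    rw [h.hH'] at hw
    rcases WT_sy (h.wt _ _) (hne _ hz) with ⟨g, _, _⟩ | ⟨q', g, _, _⟩ | ⟨q', g, _, _⟩ <;>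
      rw [g] at hw <;> simp at hw
  have hml : ∀ z q, e z (j + 1) = .ml q → z + 1 = pos := by
    intro z q he
    by_contra hz
    rw [h.hH] at he
    rcases WT_sy (h.wt _ _) (hne _ hz) with ⟨_, _, g⟩ | ⟨q', _, _, g⟩ | ⟨q', _, _, g⟩ <;>
      rw [g] at he <;> simp at he
  rcases WT_hd (h.wt pos (j + 1)) hpos with ⟨q', b, hM, g1, g2, g3⟩ | ⟨q', hM, g1, g2, g3⟩ |
    ⟨q', hM, g1, g2, g3⟩
  · refine ⟨⟨q', c.Tape.write b⟩, ?_, fun z => if z = pos then b else F z, pos, ?_, ?_⟩
    · rw [← hhead] at hM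
      obtain ⟨q, T⟩ := c
      simp only [TM0.step, hM, Option.map_some]
    · intro z
      change (c.Tape.write b).nth _ = _
      rw [Tape.write_nth]
      by_cases hz : z = pos
      · subst hz
        simp
      · simp only
        rw [if_neg (by omega), if_neg hz, hrep z]
    · intro z
      simp only
      by_cases hz : z = pos
      · subst hz
        rw [if_pos rfl, if_pos trivial, g2]
      · rw [if_neg hz, if_neg hz]
        rcases WT_sy (h.wt z (j + 1)) (hne z hz) with ⟨_, k, _⟩ | ⟨q1, _, _, k⟩ | ⟨q1, k, _, _⟩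
        · exact k
        · have k1 := hmr z q1 k
          rw [h.hH', k1, g1] at k
          simp at k
        · have k1 := hml z q1 k
          rw [h.hH, k1, g3] at k
          simp at k
  · refine ⟨⟨q', c.Tape.move .right⟩, ?_, F, pos + 1, ?_, ?_⟩
    · rw [← hhead] at hM
      obtain ⟨q, T⟩ := c
      simp only [TM0.step, hM, Option.map_some]
    · intro z
      change (c.Tape.move .right).nth _ = _
      rw [Tape.move_right_nth, ← hrep z]
      congr 1
      ring
    · intro z
      simp only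
      by_cases hz : z = pos
      · subst hz
        rw [if_neg (by omega), g2]
      · rcases WT_sy (h.wt z (j + 1)) (hne z hz) with ⟨_, k, k'⟩ | ⟨q1, _, k', k⟩ | ⟨q1, k, _, _⟩
        · rw [if_neg, k]
          rintro rfl
          rw [h.hH', show pos + 1 - 1 = pos by ring, g1] at k'
          simp at k'
        · have k1 := hmr z q1 k
          have k2 : z = pos + 1 := by omega
          subst k2
          rw [if_pos rfl, k']
          rw [h.hH', k1, g1] at k
          simp only [HC.mr.injEq] at k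
          rw [k]
        · have k1 := hml z q1 k
          rw [h.hH, k1, g3] at k
          simp at k
  · refine ⟨⟨q', c.Tape.move .left⟩, ?_, F, pos - 1, ?_, ?_⟩
    · rw [← hhead] at hM
      obtain ⟨q, T⟩ := c
      simp only [TM0.step, hM, Option.map_some]
    · intro z
      change (c.Tape.move .left).nth _ = _
      rw [Tape.move_left_nth, ← hrep z]
      congr 1
      ring
    · intro z
      simp only
      by_cases hz : z = pos
      · subst hz
        rw [if_neg (by omega), g2]
      · rcases WT_sy (h.wt z (j + 1)) (hne z hz) with ⟨k', k, _⟩ | ⟨q1, _, _, k⟩ | ⟨q1, k, k', _⟩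
        · rw [if_neg, k]
          rintro rfl
          rw [h.hH, show pos - 1 + 1 = pos by ring, g3] at k'
          simp at k'
        · have k1 := hmr z q1 k
          rw [h.hH', k1, g1] at k
          simp at k
        · have k1 := hml z q1 k
          have k2 : z = pos - 1 := by omega
          subst k2
          rw [if_pos rfl, k']
          rw [h.hH, k1, g3] at k
          simp only [HC.ml.injEq] at k
          rw [k]

theorem Arz.not_halts (h : Arz M l e w n s) (hl : 0 < l.length) :
    ¬ (StateTransition.eval (TM0.step M) (TM0.init l)).Dom := by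
  intro hd
  rw [Part.dom_iff_mem] at hd
  obtain ⟨b, hb⟩ := hd
  rw [StateTransition.mem_eval] at hb
  obtain ⟨hb1, hb2⟩ := hb
  obtain ⟨T, c, hc0, hcT, hcs⟩ := reaches_seq _ _ _ hb1
  have key : ∀ k, k ≤ T → Line (c k) (fun z => n z k) := by
    intro k
    induction k with
    | zero =>
      intro _
      rw [hc0]
      exact h.line0 hl
    | succ k ih =>
      intro hk
      obtain ⟨c', h1, h2⟩ := h.step (ih (by omega))
      rw [hcs k (by omega), Option.some.injEq] at h1
      rw [h1]
      exact h2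
  obtain ⟨c', h1, _⟩ := h.step (key T le_rfl)
  rw [hcT, hb2] at h1
  simp at h1

end

end Pool.Agent.Q230.DLC
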