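import Mathlib
import Pool.Agent.Q230.DLC.Defs
import Pool.Agent.Q230.DLC.Src

/-!
# The knowledge base of a set of squares
-/

set_option autoImplicit false

namespace Pool.Agent.Q230.DLC

open Cpt

/-- names -/
def nm (k i : ℕ) : ℕ := Nat.pair k i

/-- the number of a square -/
def nq (τ : Sq) : ℕ := Encodable.encode τ

/-- union -/
def orC (C D : Cpt) : Cpt := neg (inter (neg C) (neg D))

/-- union of a list -/
def bigOr (L : List Cpt) : Cpt := L.foldr orC bot

/-- names of the roles -/
def rX (p : Bool) (τ : Sq) : ℕ := nm (2 + p.toNat) (nq τ)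

/-- names of the roles -/
def rY (p : Bool) (τ : Sq) : ℕ := nm (4 + p.toNat) (nq τ)

def cG : Cpt := name (nm 0 0)
def cB : Cpt := name (nm 1 0)
def cD : Cpt := name (nm 2 0)
def cP (p : Bool) : Cpt := name (nm 3 p.toNat)
def cN (m : ℕ) : Cpt := name (nm 4 m)
def cE (m : ℕ) : Cpt := name (nm 5 m)
def cT (τ : Sq) : Cpt := name (nm 6 (nq τ))
def cX (p : Bool) (τ : Sq) : Cpt := ex (rX p τ, false)
def cX' (p : Bool) (τ : Sq) : Cpt := ex (rX p τ, true)
def cY (p : Bool) (τ : Sq) : Cpt := ex (rY p τ, false)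
def cY' (p : Bool) (τ : Sq) : Cpt := ex (rY p τ, true)

/-- the modes -/
def ax0 (m : ℕ) : List (Cpt × Cpt) :=
  [(cE m, ex (nm 0 m, false)), (ex (nm 0 m, true), inter cB (cN m))]

/-- the general part -/
def ax1 : List (Cpt × Cpt) :=
  [(neg bot, orC (cE 0) (orC (cE 1) (cE 2))), (inter (cN 0) (cN 1), bot),
    (inter (cN 0) (cN 2), bot), (inter (cN 1) (cN 2), bot),
    (orC (cE 0) (cE 1), ex (nm 1 0, false)), (ex (nm 1 0, true), cD),
    (inter (cP false) (cP true), bot)]

/-- inclusions for each parity -/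
def ax2 (p : Bool) (W : List Sq) : List (Cpt × Cpt) :=
  [(inter (cE 2) (cP p), bigOr (W.map (cX' (!p)))),
    (inter (cE p.toNat) cD, inter (bigOr (W.map (cX p))) (bigOr (W.map (cY p)))),
    (inter (cE p.toNat) (inter (bigOr (W.map (cY' (!p)))) (bigOr (W.map (cX' (!p))))), bot)]

/-- inclusions for each square and each parity -/
def ax3 (p : Bool) (τ : Sq) (W : List Sq) : List (Cpt × Cpt) :=
  [(inter (cE 2) (inter (cP p) (cT τ)), inter (cX p τ) (cY p τ)),
    (inter (cE 2) (cX p τ), inter (cP p) (cT τ)),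
    (inter (cE 2) (cY p τ), inter (cP p) (cT τ)),
    (inter (cE 2) (cX' p τ), inter (cP (!p))
      (bigOr (W.map (fun σ => if τ.1 = σ.2.2.1 then cT σ else bot)))),
    (inter (cE 2) (cY' p τ), inter (cP (!p))
      (bigOr (W.map (fun σ => if τ.2.1 = σ.2.2.2 then cT σ else bot)))),
    (inter (cE p.toNat) (cX' p τ), bigOr (W.map (cY (!p)))),
    (inter (cE p.toNat) (cY' p τ), bigOr (W.map (cX (!p))))]

/-- inclusions for each square -/
def ax4 (τ : Sq) (W : List Sq) : List (Cpt × Cpt) :=
  (inter (cT τ) (bigOr (W.map (fun σ => if τ = σ then bot else cT σ))), bot) ::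
    (ax3 false τ W ++ ax3 true τ W)

/-- the concept inclusions -/
def tb (W : List Sq) : List (Cpt × Cpt) :=
  ax1 ++ (ax0 0 ++ (ax0 1 ++ (ax0 2 ++
    ((inter cG (cE 2), bigOr (W.map (fun σ => orC (inter (cP false) (cT σ))
      (inter (cP true) (cT σ))))) ::
      (ax2 false W ++ (ax2 true W ++ W.flatMap (fun τ => ax4 τ W)))))))

/-- the knowledge base -/
def kb (W : List Sq) : KB where
  cis := tb W
  funcs := []
  ris := []
  cas := [(nm 1 0, 0), (nm 0 0, 1)]
  ras := []

/-- the roles of a square -/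
def rls (τ : Sq) : List Sym := [(true, rX false τ), (true, rX true τ), (true, rY false τ),
  (true, rY true τ)]

/-- the pattern -/
def pat (W : List Sq) : Pat where
  mini := (false, nm 1 0) :: W.flatMap rls
  fixd := [(false, nm 0 0)]
  prec := (W.flatMap rls).map (fun r => ((false, nm 1 0), r))

/-- the concept -/
def c0 (q0 : Sq) : Cpt := inter (cE 2) (inter (cP false) (cT q0))

theorem mem_rls {W : List Sq} {x : Sym} :
    x ∈ W.flatMap rls ↔ ∃ τ ∈ W, ∃ p, x = (true, rX p τ) ∨ x = (true, rY p τ) := by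
  rw [List.mem_flatMap]
  constructor
  · rintro ⟨τ, h1, h2⟩
    simp only [rls, List.mem_cons, List.not_mem_nil, or_false] at h2
    rcases h2 with h | h | h | h
    · exact ⟨τ, h1, false, Or.inl h⟩
    · exact ⟨τ, h1, true, Or.inl h⟩
    · exact ⟨τ, h1, false, Or.inr h⟩
    · exact ⟨τ, h1, true, Or.inr h⟩
  · rintro ⟨τ, h1, p, h | h⟩ <;> refine ⟨τ, h1, ?_⟩ <;> subst h <;> cases p <;> simp [rls]

theorem pat_valid (W : List Sq) : (pat W).Valid := by
  have h1 : ∀ x ∈ (pat W).prec, x.1 = (false, nm 1 0) ∧ x.2 ∈ W.flatMap rls := by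
    intro x hx
    simp only [pat, List.mem_map] at hx
    obtain ⟨r, hr, rfl⟩ := hx
    exact ⟨rfl, hr⟩
  have h2 : ∀ r ∈ W.flatMap rls, r.1 = true := by
    intro r hr
    obtain ⟨τ, _, p, h | h⟩ := mem_rls.1 hr <;> rw [h]
  have hne : nm 1 0 ≠ nm 0 0 := by
    unfold nm
    intro h
    have := (Nat.pair_eq_pair.1 h).1
    omega
  refine ⟨?_, ?_, ?_, ?_⟩
  · intro p hp hf
    simp only [pat, List.mem_cons, List.not_mem_nil, or_false] at hp hf
    rcases hp with h | h
    · rw [h] at hf
      simp only [Prod.mk.injEq, true_and] at hf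
      exact hne hf
    · have := h2 p h
      rw [hf] at this
      simp at this
  · intro x hx
    obtain ⟨g1, g2⟩ := h1 x hx
    refine ⟨?_, ?_⟩
    · rw [g1]
      exact List.mem_cons_self
    · exact List.mem_cons_of_mem _ g2
  · intro p hp
    obtain ⟨g1, g2⟩ := h1 _ hp
    simp only at g1 g2
    have := h2 _ g2
    rw [g1] at this
    simp at this
  · intro p q r hp hq
    exfalso
    obtain ⟨_, g2⟩ := h1 _ hp
    obtain ⟨g3, _⟩ := h1 _ hq
    simp only at g2 g3
    have := h2 _ g2
    rw [g3] at this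
    simp at this

section Computability

/-- primitive recursive families of concepts -/
def PC {α : Type} [Primcodable α] (f : α → Cpt) : Prop := Primrec (fun a => (f a).code)

/-- pairs of Gödel numbers -/
def cc (c : Cpt × Cpt) : ℕ × ℕ := (c.1.code, c.2.code)

/-- primitive recursive families of lists of inclusions -/
def PL {α : Type} [Primcodable α] (f : α → List (Cpt × Cpt)) : Prop :=
  Primrec (fun a => (f a).map cc)

variable {α β : Type} [Primcodable α] [Primcodable β]

theorem PC.const (C : Cpt) : PC (fun _ : α => C) := Primrec.const _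

theorem p_lin (a b : ℕ) {f : α → ℕ} (hf : Primrec f) : Primrec (fun x => a * f x + b) :=
  Primrec.nat_add.comp (Primrec.nat_mul.comp (Primrec.const a) hf) (Primrec.const b)

theorem PC.name {f : α → ℕ} (hf : Primrec f) : PC (fun a => name (f a)) := p_lin 4 1 hf

theorem p_toNat : Primrec Bool.toNat := Primrec.dom_finite _

theorem PC.ex {f : α → Role} (hf : Primrec f) : PC (fun a => ex (f a)) := by
  refine p_lin 4 2 ?_
  exact Primrec.nat_add.comp (Primrec.nat_mul.comp (Primrec.const 2) (Primrec.fst.comp hf))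
    (p_toNat.comp (Primrec.snd.comp hf))

theorem PC.neg {f : α → Cpt} (hf : PC f) : PC (fun a => neg (f a)) := p_lin 4 3 hf

theorem PC.inter {f g : α → Cpt} (hf : PC f) (hg : PC g) : PC (fun a => inter (f a) (g a)) :=
  p_lin 4 4 (Primrec₂.natPair.comp hf hg)

theorem PC.orC {f g : α → Cpt} (hf : PC f) (hg : PC g) : PC (fun a => orC (f a) (g a)) :=
  (hf.neg.inter hg.neg).neg

theorem PC.ite {p : α → Prop} [DecidablePred p] (hp : PrimrecPred p) {f g : α → Cpt}
    (hf : PC f) (hg : PC g) : PC (fun a => if p a then f a else g a) := by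
  refine (Primrec.ite hp hf hg).of_eq ?_
  intro a
  by_cases h : p a
  · simp only [if_pos h]
  · simp only [if_neg h]

theorem bigOr_code (L : List Cpt) : (bigOr L).code =
    (L.map code).foldr (fun x y => 4 * (4 * Nat.pair (4 * x + 3) (4 * y + 3) + 4) + 3) 0 := by
  induction L with
  | nil => rfl
  | cons C L ih =>
    rw [List.map_cons, List.foldr_cons, ← ih]
    rfl

theorem PC.bigOr {f : α → List β} (hf : Primrec f) {g : α → β → Cpt}
    (hg : PC (fun x : α × β => g x.1 x.2)) : PC (fun a => bigOr ((f a).map (g a))) := by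
  have h1 : Primrec (fun a => (f a).map (fun b => (g a b).code)) :=
    Primrec.list_map hf (show Primrec₂ (fun a b => (g a b).code) from hg)
  have h2 : Primrec₂ (fun (_ : α) (z : ℕ × ℕ) =>
      4 * (4 * Nat.pair (4 * z.1 + 3) (4 * z.2 + 3) + 4) + 3) := by
    have h3 : Primrec (fun z : ℕ × ℕ => 4 * (4 * Nat.pair (4 * z.1 + 3) (4 * z.2 + 3) + 4) + 3) :=
      p_lin 4 3 (p_lin 4 4 (Primrec₂.natPair.comp (p_lin 4 3 Primrec.fst)
        (p_lin 4 3 Primrec.snd)))
    exact h3.comp Primrec.snd
  refine (Primrec.list_foldr h1 (Primrec.const 0) h2).of_eq ?_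
  intro a
  rw [bigOr_code, List.map_map]
  rfl

theorem PL.nil : PL (fun _ : α => ([] : List (Cpt × Cpt))) := Primrec.const _

theorem PL.const (L : List (Cpt × Cpt)) : PL (fun _ : α => L) := Primrec.const _

theorem PL.cons {f g : α → Cpt} {h : α → List (Cpt × Cpt)} (hf : PC f) (hg : PC g)
    (hh : PL h) : PL (fun a => (f a, g a) :: h a) :=
  Primrec.list_cons.comp (Primrec.pair hf hg) hh

theorem PL.append {f g : α → List (Cpt × Cpt)} (hf : PL f) (hg : PL g) :
    PL (fun a => f a ++ g a) := by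
  refine (Primrec.list_append.comp hf hg).of_eq ?_
  intro a
  rw [List.map_append]

theorem PL.flatMap {f : α → List β} (hf : Primrec f) {g : α → β → List (Cpt × Cpt)}
    (hg : PL (fun x : α × β => g x.1 x.2)) : PL (fun a => (f a).flatMap (g a)) := by
  have h1 : Primrec (fun a => (f a).flatMap (fun b => (g a b).map cc)) :=
    Primrec.list_flatMap hf (show Primrec₂ (fun a b => (g a b).map cc) from hg)
  refine h1.of_eq ?_
  intro a
  rw [List.map_flatMap]

theorem p_nq : Primrec nq := Primrec.encode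

theorem p_rX (p : Bool) : Primrec (rX p) :=
  Primrec₂.natPair.comp (Primrec.const _) p_nq

theorem p_rY (p : Bool) : Primrec (rY p) :=
  Primrec₂.natPair.comp (Primrec.const _) p_nq

theorem pc_T {f : α → Sq} (hf : Primrec f) : PC (fun a => cT (f a)) :=
  PC.name (Primrec₂.natPair.comp (Primrec.const _) (p_nq.comp hf))

theorem pc_X (p : Bool) {f : α → Sq} (hf : Primrec f) : PC (fun a => cX p (f a)) :=
  PC.ex (Primrec.pair ((p_rX p).comp hf) (Primrec.const _))

theorem pc_X' (p : Bool) {f : α → Sq} (hf : Primrec f) : PC (fun a => cX' p (f a)) :=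
  PC.ex (Primrec.pair ((p_rX p).comp hf) (Primrec.const _))

theorem pc_Y (p : Bool) {f : α → Sq} (hf : Primrec f) : PC (fun a => cY p (f a)) :=
  PC.ex (Primrec.pair ((p_rY p).comp hf) (Primrec.const _))

theorem pc_Y' (p : Bool) {f : α → Sq} (hf : Primrec f) : PC (fun a => cY' p (f a)) :=
  PC.ex (Primrec.pair ((p_rY p).comp hf) (Primrec.const _))

theorem pl_ax2 (p : Bool) {f : α → List Sq} (hf : Primrec f) : PL (fun a => ax2 p (f a)) := by
  refine PL.cons (PC.const _) (PC.bigOr hf (pc_X' _ Primrec.snd)) (PL.cons (PC.const _)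
    (PC.inter (PC.bigOr hf (pc_X _ Primrec.snd)) (PC.bigOr hf (pc_Y _ Primrec.snd)))
    (PL.cons (PC.inter (PC.const _) (PC.inter (PC.bigOr hf (pc_Y' _ Primrec.snd))
      (PC.bigOr hf (pc_X' _ Primrec.snd)))) (PC.const _) PL.nil))

theorem pl_ax3 (p : Bool) {f : α → List Sq} (hf : Primrec f) {t : α → Sq} (ht : Primrec t) :
    PL (fun a => ax3 p (t a) (f a)) := by
  have h1 : PC (fun x : α × Sq => if (t x.1).1 = x.2.2.2.1 then cT x.2 else bot) := by
    refine PC.ite ?_ (pc_T Primrec.snd) (PC.const _)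
    exact Primrec.eq.comp (Primrec.fst.comp (ht.comp Primrec.fst))
      (Primrec.fst.comp (Primrec.snd.comp (Primrec.snd.comp Primrec.snd)))
  have h2 : PC (fun x : α × Sq => if (t x.1).2.1 = x.2.2.2.2 then cT x.2 else bot) := by
    refine PC.ite ?_ (pc_T Primrec.snd) (PC.const _)
    exact Primrec.eq.comp (Primrec.fst.comp (Primrec.snd.comp (ht.comp Primrec.fst)))
      (Primrec.snd.comp (Primrec.snd.comp (Primrec.snd.comp Primrec.snd)))
  refine PL.cons (PC.inter (PC.const _) (PC.inter (PC.const _) (pc_T ht)))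
    (PC.inter (pc_X p ht) (pc_Y p ht)) ?_
  refine PL.cons (PC.inter (PC.const _) (pc_X p ht)) (PC.inter (PC.const _) (pc_T ht)) ?_
  refine PL.cons (PC.inter (PC.const _) (pc_Y p ht)) (PC.inter (PC.const _) (pc_T ht)) ?_
  refine PL.cons (PC.inter (PC.const _) (pc_X' p ht)) (PC.inter (PC.const _)
    (PC.bigOr hf h1)) ?_
  refine PL.cons (PC.inter (PC.const _) (pc_Y' p ht)) (PC.inter (PC.const _)
    (PC.bigOr hf h2)) ?_
  refine PL.cons (PC.inter (PC.const _) (pc_X' p ht)) (PC.bigOr hf (pc_Y _ Primrec.snd)) ?_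
  exact PL.cons (PC.inter (PC.const _) (pc_Y' p ht)) (PC.bigOr hf (pc_X _ Primrec.snd)) PL.nil

theorem pl_ax4 {f : α → List Sq} (hf : Primrec f) {t : α → Sq} (ht : Primrec t) :
    PL (fun a => ax4 (t a) (f a)) := by
  have h1 : PC (fun x : α × Sq => if t x.1 = x.2 then bot else cT x.2) :=
    PC.ite (Primrec.eq.comp (ht.comp Primrec.fst) Primrec.snd) (PC.const _) (pc_T Primrec.snd)
  exact PL.cons (PC.inter (pc_T ht) (PC.bigOr hf h1)) (PC.const _)
    (PL.append (pl_ax3 false hf ht) (pl_ax3 true hf ht))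

theorem pl_tb : PL tb := by
  refine PL.append (PL.const _) (PL.append (PL.const _) (PL.append (PL.const _)
    (PL.append (PL.const _) (PL.cons (PC.const _) (PC.bigOr Primrec.id ?_)
      (PL.append (pl_ax2 _ Primrec.id) (PL.append (pl_ax2 _ Primrec.id)
        (PL.flatMap Primrec.id (pl_ax4 Primrec.fst Primrec.snd))))))))
  exact PC.orC (PC.inter (PC.const _) (pc_T Primrec.snd))
    (PC.inter (PC.const _) (pc_T Primrec.snd))

theorem p_rls : Primrec rls := by
  have h : ∀ {f : Sq → ℕ}, Primrec f → Primrec (fun τ : Sq => ((true, f τ) : Sym)) := fun hf =>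
    Primrec.pair (Primrec.const _) hf
  exact Primrec.list_cons.comp (h (p_rX false)) (Primrec.list_cons.comp (h (p_rX true))
    (Primrec.list_cons.comp (h (p_rY false)) (Primrec.list_cons.comp (h (p_rY true))
      (Primrec.const []))))

theorem p_inp (q0 : Sq) : Primrec (fun W : List Sq => inp (c0 q0) (kb W) (pat W)) := by
  have h1 : Primrec (fun W : List Sq => W.flatMap rls) :=
    Primrec.list_flatMap Primrec.id (p_rls.comp Primrec.snd).to₂
  have h2 : Primrec (fun W : List Sq => (W.flatMap rls).map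
      (fun r => (((false, nm 1 0), r) : Sym × Sym))) :=
    Primrec.list_map h1 (Primrec.pair (Primrec.const _) Primrec.snd).to₂
  exact Primrec.pair (Primrec.const _) (Primrec.pair pl_tb (Primrec.pair (Primrec.const _)
    (Primrec.pair (Primrec.const _) (Primrec.pair (Primrec.const _) (Primrec.pair
      (Primrec.const _) (Primrec.pair (Primrec.list_cons.comp (Primrec.const _) h1)
        (Primrec.pair (Primrec.const _) h2)))))))

end Computability

end Pool.Agent.Q230.DLC
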