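import Mathlib
import Pool.Agent.Q230.DLC.Red

/-!
# The meaning of the knowledge base
-/

set_option autoImplicit false

namespace Pool.Agent.Q230.DLC

open Cpt

/-- The relevant part of an interpretation. -/
@[ext] structure Mod (Δ : Type) where
  G : Δ → Prop
  B : Δ → Prop
  D : Δ → Prop
  P : Bool → Δ → Prop
  N : ℕ → Δ → Prop
  E : ℕ → Δ → Prop
  T : Sq → Δ → Prop
  t : ℕ → Δ → Δ → Prop
  s : Δ → Δ → Prop
  X : Bool → Sq → Δ → Δ → Prop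
  Y : Bool → Sq → Δ → Δ → Prop
  ind : ℕ → Δ

variable {Δ : Type}

/-- the relevant part -/
def ofI (I : Interp Δ) : Mod Δ where
  G := I.cn (nm 0 0)
  B := I.cn (nm 1 0)
  D := I.cn (nm 2 0)
  P := fun p => I.cn (nm 3 p.toNat)
  N := fun m => I.cn (nm 4 m)
  E := fun m => I.cn (nm 5 m)
  T := fun τ => I.cn (nm 6 (nq τ))
  t := fun m => I.rn (nm 0 m)
  s := I.rn (nm 1 0)
  X := fun p τ => I.rn (rX p τ)
  Y := fun p τ => I.rn (rY p τ)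
  ind := I.ind

/-- concept names -/
def toC (M : Mod Δ) (k i : ℕ) (x : Δ) : Prop :=
  match k with
  | 0 => M.G x
  | 1 => M.B x
  | 2 => M.D x
  | 3 => M.P (decide (i = 1)) x
  | 4 => M.N i x
  | 5 => M.E i x
  | 6 => ∃ τ, nq τ = i ∧ M.T τ x
  | _ => False

/-- role names -/
def toR (M : Mod Δ) (k i : ℕ) (x y : Δ) : Prop :=
  match k with
  | 0 => M.t i x y
  | 1 => M.s x y
  | 2 => ∃ τ, nq τ = i ∧ M.X false τ x y
  | 3 => ∃ τ, nq τ = i ∧ M.X true τ x y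
  | 4 => ∃ τ, nq τ = i ∧ M.Y false τ x y
  | 5 => ∃ τ, nq τ = i ∧ M.Y true τ x y
  | _ => False

/-- the interpretation -/
def toI (M : Mod Δ) : Interp Δ where
  cn := fun n x => toC M n.unpair.1 n.unpair.2 x
  rn := fun n x y => toR M n.unpair.1 n.unpair.2 x y
  ind := M.ind

theorem nq_inj : Function.Injective nq := Encodable.encode_injective

theorem ex_nq {P : Sq → Prop} (τ : Sq) : (∃ σ, nq σ = nq τ ∧ P σ) ↔ P τ := by
  constructor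
  · rintro ⟨σ, h1, h2⟩
    rw [nq_inj h1] at h2
    exact h2
  · exact fun h => ⟨τ, rfl, h⟩

theorem toI_cn (M : Mod Δ) (k i : ℕ) (x : Δ) : (toI M).cn (nm k i) x ↔ toC M k i x := by
  simp only [toI, nm, Nat.unpair_pair]

theorem toI_rn (M : Mod Δ) (k i : ℕ) (x y : Δ) : (toI M).rn (nm k i) x y ↔ toR M k i x y := by
  simp only [toI, nm, Nat.unpair_pair]

theorem toI_X (M : Mod Δ) (p : Bool) (τ : Sq) (x y : Δ) :
    (toI M).rn (rX p τ) x y ↔ M.X p τ x y := by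
  unfold rX
  rw [toI_rn]
  cases p
  · exact ex_nq τ
  · exact ex_nq τ

theorem toI_Y (M : Mod Δ) (p : Bool) (τ : Sq) (x y : Δ) :
    (toI M).rn (rY p τ) x y ↔ M.Y p τ x y := by
  unfold rY
  rw [toI_rn]
  cases p
  · exact ex_nq τ
  · exact ex_nq τ

theorem of_to (M : Mod Δ) : ofI (toI M) = M := by
  apply Mod.ext
  · funext x; exact propext (toI_cn M 0 0 x)
  · funext x; exact propext (toI_cn M 1 0 x)
  · funext x; exact propext (toI_cn M 2 0 x)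
  · funext p x
    refine propext ((toI_cn M 3 p.toNat x).trans ?_)
    cases p <;> simp [toC]
  · funext m x; exact propext (toI_cn M 4 m x)
  · funext m x; exact propext (toI_cn M 5 m x)
  · funext τ x
    exact propext ((toI_cn M 6 (nq τ) x).trans (ex_nq τ))
  · funext m x y; exact propext (toI_rn M 0 m x y)
  · funext x y; exact propext (toI_rn M 1 0 x y)
  · funext p τ x y; exact propext (toI_X M p τ x y)
  · funext p τ x y; exact propext (toI_Y M p τ x y)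
  · rfl

/-- The inclusions, in semantic form. -/
structure AM (W : List Sq) (M : Mod Δ) : Prop where
  e : ∀ x, M.E 0 x ∨ M.E 1 x ∨ M.E 2 x
  et : ∀ m < 3, ∀ x, M.E m x → ∃ y, M.t m x y
  tB : ∀ m < 3, ∀ x, (∃ y, M.t m y x) → M.B x ∧ M.N m x
  n01 : ∀ x, ¬ (M.N 0 x ∧ M.N 1 x)
  n02 : ∀ x, ¬ (M.N 0 x ∧ M.N 2 x)
  n12 : ∀ x, ¬ (M.N 1 x ∧ M.N 2 x)
  es : ∀ x, M.E 0 x ∨ M.E 1 x → ∃ y, M.s x y
  sD : ∀ x, (∃ y, M.s y x) → M.D x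
  pp : ∀ x, ¬ (M.P false x ∧ M.P true x)
  g : ∀ x, M.G x → M.E 2 x → ∃ τ ∈ W, ∃ p, M.P p x ∧ M.T τ x
  pr : ∀ p x, M.E 2 x → M.P p x → ∃ τ ∈ W, ∃ y, M.X (!p) τ y x
  d : ∀ (q : Bool) x, M.E q.toNat x → M.D x →
    (∃ τ ∈ W, ∃ y, M.X q τ x y) ∧ ∃ τ ∈ W, ∃ y, M.Y q τ x y
  bad : ∀ (q : Bool) x, M.E q.toNat x → (∃ τ ∈ W, ∃ y, M.Y (!q) τ y x) →
    ¬ ∃ τ ∈ W, ∃ y, M.X (!q) τ y x
  su : ∀ τ ∈ W, ∀ p x, M.E 2 x → M.P p x → M.T τ x → (∃ y, M.X p τ x y) ∧ ∃ y, M.Y p τ x y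
  xs : ∀ τ ∈ W, ∀ p x, M.E 2 x → (∃ y, M.X p τ x y) → M.P p x ∧ M.T τ x
  ys : ∀ τ ∈ W, ∀ p x, M.E 2 x → (∃ y, M.Y p τ x y) → M.P p x ∧ M.T τ x
  xt : ∀ τ ∈ W, ∀ p x, M.E 2 x → (∃ y, M.X p τ y x) →
    M.P (!p) x ∧ ∃ σ ∈ W, τ.1 = σ.2.2.1 ∧ M.T σ x
  yt : ∀ τ ∈ W, ∀ p x, M.E 2 x → (∃ y, M.Y p τ y x) →
    M.P (!p) x ∧ ∃ σ ∈ W, τ.2.1 = σ.2.2.2 ∧ M.T σ x
  un : ∀ τ ∈ W, ∀ σ ∈ W, ∀ x, M.T τ x → M.T σ x → τ = σ
  dx : ∀ τ ∈ W, ∀ (q : Bool) x, M.E q.toNat x → (∃ y, M.X q τ y x) →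
    ∃ σ ∈ W, ∃ y, M.Y (!q) σ x y
  dy : ∀ τ ∈ W, ∀ (q : Bool) x, M.E q.toNat x → (∃ y, M.Y q τ y x) →
    ∃ σ ∈ W, ∃ y, M.X (!q) σ x y
  ab : M.B (M.ind 0)
  ag : M.G (M.ind 1)
  ne : M.ind 0 ≠ M.ind 1

/-- All inclusions of the list hold. -/
def AxL (I : Interp Δ) (L : List (Cpt × Cpt)) : Prop :=
  ∀ c ∈ L, ∀ x, I.sat c.1 x → I.sat c.2 x

section

variable (I : Interp Δ) (x : Δ)

theorem axl_nil : AxL I [] ↔ True := by simp [AxL]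

theorem axl_cons (c : Cpt × Cpt) (L : List (Cpt × Cpt)) :
    AxL I (c :: L) ↔ (∀ x, I.sat c.1 x → I.sat c.2 x) ∧ AxL I L := by
  simp only [AxL, List.forall_mem_cons]

theorem axl_append (L L' : List (Cpt × Cpt)) : AxL I (L ++ L') ↔ AxL I L ∧ AxL I L' := by
  simp only [AxL, List.forall_mem_append]

theorem axl_flatMap (W : List Sq) (g : Sq → List (Cpt × Cpt)) :
    AxL I (W.flatMap g) ↔ ∀ τ ∈ W, AxL I (g τ) := by
  simp only [AxL, List.mem_flatMap]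
  constructor
  · exact fun h τ hτ c hc => h c ⟨τ, hτ, hc⟩
  · rintro h c ⟨τ, hτ, hc⟩
    exact h τ hτ c hc

theorem s_orC (C D : Cpt) : I.sat (orC C D) x ↔ I.sat C x ∨ I.sat D x := by
  simp only [orC, Interp.sat]
  tauto

theorem s_bigOr (L : List Cpt) : I.sat (bigOr L) x ↔ ∃ C ∈ L, I.sat C x := by
  induction L with
  | nil => simp [bigOr, Interp.sat]
  | cons C L ih =>
    change I.sat (orC C (bigOr L)) x ↔ _
    rw [s_orC, ih]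
    simp

theorem s_bigM (W : List Sq) (g : Sq → Cpt) :
    I.sat (bigOr (W.map g)) x ↔ ∃ τ ∈ W, I.sat (g τ) x := by
  rw [s_bigOr]
  simp

theorem s_inter (C D : Cpt) : I.sat (inter C D) x ↔ I.sat C x ∧ I.sat D x := Iff.rfl
theorem s_bot : I.sat bot x ↔ False := Iff.rfl
theorem s_neg (C : Cpt) : I.sat (neg C) x ↔ ¬ I.sat C x := Iff.rfl
theorem s_G : I.sat cG x ↔ (ofI I).G x := Iff.rfl
theorem s_B : I.sat cB x ↔ (ofI I).B x := Iff.rfl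
theorem s_D : I.sat cD x ↔ (ofI I).D x := Iff.rfl
theorem s_P (p : Bool) : I.sat (cP p) x ↔ (ofI I).P p x := Iff.rfl
theorem s_N (m : ℕ) : I.sat (cN m) x ↔ (ofI I).N m x := Iff.rfl
theorem s_E (m : ℕ) : I.sat (cE m) x ↔ (ofI I).E m x := Iff.rfl
theorem s_T (τ : Sq) : I.sat (cT τ) x ↔ (ofI I).T τ x := Iff.rfl
theorem s_t (m : ℕ) : I.sat (ex (nm 0 m, false)) x ↔ ∃ y, (ofI I).t m x y := by
  simp only [Interp.sat, Interp.role, ofI, Bool.false_eq_true, if_false]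
theorem s_t' (m : ℕ) : I.sat (ex (nm 0 m, true)) x ↔ ∃ y, (ofI I).t m y x := by
  simp only [Interp.sat, Interp.role, ofI, if_true]
theorem s_s : I.sat (ex (nm 1 0, false)) x ↔ ∃ y, (ofI I).s x y := by
  simp only [Interp.sat, Interp.role, ofI, Bool.false_eq_true, if_false]
theorem s_s' : I.sat (ex (nm 1 0, true)) x ↔ ∃ y, (ofI I).s y x := by
  simp only [Interp.sat, Interp.role, ofI, if_true]
theorem s_X (p : Bool) (τ : Sq) : I.sat (cX p τ) x ↔ ∃ y, (ofI I).X p τ x y := by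
  simp only [cX, Interp.sat, Interp.role, ofI, Bool.false_eq_true, if_false]
theorem s_X' (p : Bool) (τ : Sq) : I.sat (cX' p τ) x ↔ ∃ y, (ofI I).X p τ y x := by
  simp only [cX', Interp.sat, Interp.role, ofI, if_true]
theorem s_Y (p : Bool) (τ : Sq) : I.sat (cY p τ) x ↔ ∃ y, (ofI I).Y p τ x y := by
  simp only [cY, Interp.sat, Interp.role, ofI, Bool.false_eq_true, if_false]
theorem s_Y' (p : Bool) (τ : Sq) : I.sat (cY' p τ) x ↔ ∃ y, (ofI I).Y p τ y x := by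
  simp only [cY', Interp.sat, Interp.role, ofI, if_true]
theorem s_if (c : Prop) [Decidable c] (C D : Cpt) :
    I.sat (if c then C else D) x ↔ (c ∧ I.sat C x) ∨ (¬ c ∧ I.sat D x) := by
  by_cases h : c
  · rw [if_pos h]
    tauto
  · rw [if_neg h]
    tauto

theorem x0 (m : ℕ) : AxL I (ax0 m) ↔ (∀ x, (ofI I).E m x → ∃ y, (ofI I).t m x y) ∧
    ∀ x, (∃ y, (ofI I).t m y x) → (ofI I).B x ∧ (ofI I).N m x := by
  simp only [ax0, axl_cons, axl_nil, s_inter, s_t, s_t', s_E, s_B, s_N, and_true]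

theorem x1 : AxL I ax1 ↔ (∀ x, (ofI I).E 0 x ∨ (ofI I).E 1 x ∨ (ofI I).E 2 x) ∧
    (∀ x, ¬ ((ofI I).N 0 x ∧ (ofI I).N 1 x)) ∧ (∀ x, ¬ ((ofI I).N 0 x ∧ (ofI I).N 2 x)) ∧
    (∀ x, ¬ ((ofI I).N 1 x ∧ (ofI I).N 2 x)) ∧
    (∀ x, (ofI I).E 0 x ∨ (ofI I).E 1 x → ∃ y, (ofI I).s x y) ∧
    (∀ x, (∃ y, (ofI I).s y x) → (ofI I).D x) ∧
    (∀ x, ¬ ((ofI I).P false x ∧ (ofI I).P true x)) := by
  simp only [ax1, axl_cons, axl_nil, s_inter, s_s, s_s', s_E, s_D, s_N, s_P, s_orC, s_neg, s_bot,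
    and_true, not_false_eq_true, true_imp_iff, imp_false]

theorem x2 (p : Bool) (W : List Sq) : AxL I (ax2 p W) ↔
    (∀ x, (ofI I).E 2 x ∧ (ofI I).P p x → ∃ τ ∈ W, ∃ y, (ofI I).X (!p) τ y x) ∧
    (∀ x, (ofI I).E p.toNat x ∧ (ofI I).D x →
      (∃ τ ∈ W, ∃ y, (ofI I).X p τ x y) ∧ ∃ τ ∈ W, ∃ y, (ofI I).Y p τ x y) ∧
    (∀ x, ¬ ((ofI I).E p.toNat x ∧ (∃ τ ∈ W, ∃ y, (ofI I).Y (!p) τ y x) ∧
      ∃ τ ∈ W, ∃ y, (ofI I).X (!p) τ y x)) := by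
  simp only [ax2, axl_cons, axl_nil, s_inter, s_X, s_X', s_Y, s_Y', s_E, s_D, s_P, s_bigM, s_bot,
    and_true, imp_false]

theorem x3 (p : Bool) (τ : Sq) (W : List Sq) : AxL I (ax3 p τ W) ↔
    (∀ x, (ofI I).E 2 x ∧ (ofI I).P p x ∧ (ofI I).T τ x →
      (∃ y, (ofI I).X p τ x y) ∧ ∃ y, (ofI I).Y p τ x y) ∧
    (∀ x, (ofI I).E 2 x ∧ (∃ y, (ofI I).X p τ x y) → (ofI I).P p x ∧ (ofI I).T τ x) ∧
    (∀ x, (ofI I).E 2 x ∧ (∃ y, (ofI I).Y p τ x y) → (ofI I).P p x ∧ (ofI I).T τ x) ∧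
    (∀ x, (ofI I).E 2 x ∧ (∃ y, (ofI I).X p τ y x) →
      (ofI I).P (!p) x ∧ ∃ σ ∈ W, τ.1 = σ.2.2.1 ∧ (ofI I).T σ x) ∧
    (∀ x, (ofI I).E 2 x ∧ (∃ y, (ofI I).Y p τ y x) →
      (ofI I).P (!p) x ∧ ∃ σ ∈ W, τ.2.1 = σ.2.2.2 ∧ (ofI I).T σ x) ∧
    (∀ x, (ofI I).E p.toNat x ∧ (∃ y, (ofI I).X p τ y x) →
      ∃ σ ∈ W, ∃ y, (ofI I).Y (!p) σ x y) ∧
    (∀ x, (ofI I).E p.toNat x ∧ (∃ y, (ofI I).Y p τ y x) →
      ∃ σ ∈ W, ∃ y, (ofI I).X (!p) σ x y) := by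
  simp only [ax3, axl_cons, axl_nil, s_inter, s_X, s_X', s_Y, s_Y', s_E, s_P, s_T, s_bigM, s_bot,
    s_if, and_true, and_false, or_false]

theorem x4 (τ : Sq) (W : List Sq) : AxL I (ax4 τ W) ↔
    (∀ x, (ofI I).T τ x → ∀ σ ∈ W, (ofI I).T σ x → τ = σ) ∧
    AxL I (ax3 false τ W) ∧ AxL I (ax3 true τ W) := by
  simp only [ax4, axl_cons, axl_append, s_inter, s_T, s_bigM, s_bot, s_if, and_false, false_or]
  refine and_congr ?_ Iff.rfl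
  refine forall_congr' fun x => ?_
  constructor
  · intro h h1 σ hσ h2
    by_contra hn
    exact h ⟨h1, σ, hσ, hn, h2⟩
  · rintro h ⟨h1, σ, hσ, hn, h2⟩
    exact hn (h h1 σ hσ h2)

theorem xtb (W : List Sq) : AxL I (tb W) ↔ AxL I ax1 ∧ AxL I (ax0 0) ∧ AxL I (ax0 1) ∧
    AxL I (ax0 2) ∧ (∀ x, (ofI I).G x ∧ (ofI I).E 2 x → ∃ τ ∈ W,
      ((ofI I).P false x ∧ (ofI I).T τ x) ∨ ((ofI I).P true x ∧ (ofI I).T τ x)) ∧
    AxL I (ax2 false W) ∧ AxL I (ax2 true W) ∧ ∀ τ ∈ W, AxL I (ax4 τ W) := by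
  simp only [tb, axl_cons, axl_append, axl_flatMap, s_inter, s_T, s_bigM, s_orC, s_G, s_E, s_P]

end

theorem model_iff (I : Interp Δ) (W : List Sq) : I.Model (kb W) ↔ AM W (ofI I) := by
  constructor
  · intro h
    have hc : AxL I (tb W) := h.cis
    rw [xtb, x1, x0, x0, x0, x2, x2] at hc
    obtain ⟨⟨a1, a2, a3, a4, a5, a6, a7⟩, ⟨b1, b2⟩, ⟨b3, b4⟩, ⟨b5, b6⟩, c1, ⟨d1, d2, d3⟩,
      ⟨d4, d5, d6⟩, h4⟩ := hc
    have h5 : ∀ τ ∈ W, _ := fun τ hτ => (x4 I τ W).1 (h4 τ hτ)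
    have h6 : ∀ τ ∈ W, ∀ p, AxL I (ax3 p τ W) := fun τ hτ p => by
      cases p
      · exact (h5 τ hτ).2.1
      · exact (h5 τ hτ).2.2
    have h7 : ∀ τ ∈ W, ∀ p, _ := fun τ hτ p => (x3 I p τ W).1 (h6 τ hτ p)
    refine ⟨a1, ?_, ?_, a2, a3, a4, a5, a6, a7, ?_, ?_, ?_, ?_, ?_, ?_, ?_, ?_, ?_, ?_, ?_, ?_,
      ?_, ?_, ?_⟩
    · intro m hm x hx
      interval_cases m
      · exact b1 x hx
      · exact b3 x hx
      · exact b5 x hx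
    · intro m hm x hx
      interval_cases m
      · exact b2 x hx
      · exact b4 x hx
      · exact b6 x hx
    · intro x h1 h2
      obtain ⟨τ, hτ, h | h⟩ := c1 x ⟨h1, h2⟩
      · exact ⟨τ, hτ, false, h⟩
      · exact ⟨τ, hτ, true, h⟩
    · intro p x g1 g2
      cases p
      · exact d1 x ⟨g1, g2⟩
      · exact d4 x ⟨g1, g2⟩
    · intro p x g1 g2
      cases p
      · exact d2 x ⟨g1, g2⟩
      · exact d5 x ⟨g1, g2⟩
    · intro p x g1 g2 g3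
      cases p
      · exact d3 x ⟨g1, g2, g3⟩
      · exact d6 x ⟨g1, g2, g3⟩
    · exact fun τ hτ p x g1 g2 g3 => (h7 τ hτ p).1 x ⟨g1, g2, g3⟩
    · exact fun τ hτ p x g1 g2 => (h7 τ hτ p).2.1 x ⟨g1, g2⟩
    · exact fun τ hτ p x g1 g2 => (h7 τ hτ p).2.2.1 x ⟨g1, g2⟩
    · exact fun τ hτ p x g1 g2 => (h7 τ hτ p).2.2.2.1 x ⟨g1, g2⟩
    · exact fun τ hτ p x g1 g2 => (h7 τ hτ p).2.2.2.2.1 x ⟨g1, g2⟩
    · exact fun τ hτ σ hσ x g1 g2 => (h5 τ hτ).1 x g1 σ hσ g2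
    · exact fun τ hτ p x g1 g2 => (h7 τ hτ p).2.2.2.2.2.1 x ⟨g1, g2⟩
    · exact fun τ hτ p x g1 g2 => (h7 τ hτ p).2.2.2.2.2.2 x ⟨g1, g2⟩
    · exact h.cas (nm 1 0, 0) (by simp [kb])
    · exact h.cas (nm 0 0, 1) (by simp [kb])
    · intro he
      have := h.una 0 1 (Or.inl ⟨nm 1 0, by simp [kb]⟩) (Or.inl ⟨nm 0 0, by simp [kb]⟩) he
      omega
  · intro h
    refine ⟨?_, ?_, ?_, ?_, ?_, ?_⟩
    · have hocc : ∀ a, (kb W).Occ a → a = 0 ∨ a = 1 := by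
        rintro a (⟨A, hA⟩ | ⟨P, b, hb⟩)
        · simp only [kb, List.mem_cons, Prod.mk.injEq, List.not_mem_nil, or_false] at hA
          rcases hA with hA | hA
          · exact Or.inl hA.2
          · exact Or.inr hA.2
        · simp [kb] at hb
      intro a b ha hb hab
      rcases hocc a ha with rfl | rfl <;> rcases hocc b hb with rfl | rfl
      · rfl
      · exact absurd hab h.ne
      · exact absurd hab.symm h.ne
      · rfl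
    · change AxL I (tb W)
      rw [xtb, x1, x0, x0, x0, x2, x2]
      refine ⟨⟨h.e, h.n01, h.n02, h.n12, h.es, h.sD, h.pp⟩,
        ⟨h.et 0 (by omega), h.tB 0 (by omega)⟩, ⟨h.et 1 (by omega), h.tB 1 (by omega)⟩,
        ⟨h.et 2 (by omega), h.tB 2 (by omega)⟩, ?_, ⟨?_, ?_, ?_⟩, ⟨?_, ?_, ?_⟩, ?_⟩
      · rintro x ⟨g1, g2⟩
        obtain ⟨τ, hτ, p, hp⟩ := h.g x g1 g2
        refine ⟨τ, hτ, ?_⟩
        cases p
        · exact Or.inl hp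
        · exact Or.inr hp
      · exact fun x g => h.pr false x g.1 g.2
      · exact fun x g => h.d false x g.1 g.2
      · exact fun x g => h.bad false x g.1 g.2.1 g.2.2
      · exact fun x g => h.pr true x g.1 g.2
      · exact fun x g => h.d true x g.1 g.2
      · exact fun x g => h.bad true x g.1 g.2.1 g.2.2
      · intro τ hτ
        rw [x4, x3, x3]
        have key : ∀ p, _ := fun p => (⟨fun x g => h.su τ hτ p x g.1 g.2.1 g.2.2,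
          fun x g => h.xs τ hτ p x g.1 g.2, fun x g => h.ys τ hτ p x g.1 g.2,
          fun x g => h.xt τ hτ p x g.1 g.2, fun x g => h.yt τ hτ p x g.1 g.2,
          fun x g => h.dx τ hτ p x g.1 g.2, fun x g => h.dy τ hτ p x g.1 g.2⟩ :
            (∀ x, (ofI I).E 2 x ∧ (ofI I).P p x ∧ (ofI I).T τ x →
      (∃ y, (ofI I).X p τ x y) ∧ ∃ y, (ofI I).Y p τ x y) ∧
    (∀ x, (ofI I).E 2 x ∧ (∃ y, (ofI I).X p τ x y) → (ofI I).P p x ∧ (ofI I).T τ x) ∧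
    (∀ x, (ofI I).E 2 x ∧ (∃ y, (ofI I).Y p τ x y) → (ofI I).P p x ∧ (ofI I).T τ x) ∧
    (∀ x, (ofI I).E 2 x ∧ (∃ y, (ofI I).X p τ y x) →
      (ofI I).P (!p) x ∧ ∃ σ ∈ W, τ.1 = σ.2.2.1 ∧ (ofI I).T σ x) ∧
    (∀ x, (ofI I).E 2 x ∧ (∃ y, (ofI I).Y p τ y x) →
      (ofI I).P (!p) x ∧ ∃ σ ∈ W, τ.2.1 = σ.2.2.2 ∧ (ofI I).T σ x) ∧
    (∀ x, (ofI I).E p.toNat x ∧ (∃ y, (ofI I).X p τ y x) →
      ∃ σ ∈ W, ∃ y, (ofI I).Y (!p) σ x y) ∧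
    (∀ x, (ofI I).E p.toNat x ∧ (∃ y, (ofI I).Y p τ y x) →
      ∃ σ ∈ W, ∃ y, (ofI I).X (!p) σ x y))
        exact ⟨fun x g1 σ hσ g2 => h.un τ hτ σ hσ x g1 g2, key false, key true⟩
    · simp [kb]
    · simp [kb]
    · intro c hc
      simp only [kb, List.mem_cons, List.not_mem_nil, or_false] at hc
      rcases hc with rfl | rfl
      · exact h.ab
      · exact h.ag
    · simp [kb]

/-- All elements have the same mode. -/
theorem AM.mode {W : List Sq} {M : Mod Δ} (A : AM W M) (a : Δ) (hB : ∀ x, M.B x → x = a) :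
    ∃ m < 3, (∀ x, M.E m x) ∧ ∀ m' < 3, ∀ x, M.E m' x → m' = m := by
  have h1 : ∀ m < 3, ∀ x, M.E m x → M.N m a := by
    intro m hm x hx
    obtain ⟨y, hy⟩ := A.et m hm x hx
    obtain ⟨g1, g2⟩ := A.tB m hm y ⟨x, hy⟩
    rw [hB y g1] at g2
    exact g2
  have h2 : ∀ x, ∃ m < 3, M.E m x := by
    intro x
    rcases A.e x with h | h | h
    · exact ⟨0, by omega, h⟩
    · exact ⟨1, by omega, h⟩
    · exact ⟨2, by omega, h⟩
  have h3 : ∀ m < 3, ∀ m' < 3, M.N m a → M.N m' a → m' = m := by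
    intro m hm m' hm' g1 g2
    interval_cases m <;> interval_cases m' <;> try rfl
    · exact absurd ⟨g1, g2⟩ (A.n01 a)
    · exact absurd ⟨g1, g2⟩ (A.n02 a)
    · exact absurd ⟨g2, g1⟩ (A.n01 a)
    · exact absurd ⟨g1, g2⟩ (A.n12 a)
    · exact absurd ⟨g2, g1⟩ (A.n02 a)
    · exact absurd ⟨g2, g1⟩ (A.n12 a)
  obtain ⟨m, hm, hma⟩ := h2 a
  refine ⟨m, hm, fun x => ?_, fun m' hm' x hx => h3 m hm m' hm' (h1 m hm a hma) (h1 m' hm' x hx)⟩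
  obtain ⟨m', hm', hx⟩ := h2 x
  rw [← h3 m hm m' hm' (h1 m hm a hma) (h1 m' hm' x hx)]
  exact hx

end Pool.Agent.Q230.DLC
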