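import Mathlib
import Pool.Agent.Q230.DLC.Sem

/-!
# A tiling gives a model of the circumscribed knowledge base
-/

set_option autoImplicit false

namespace Pool.Agent.Q230.DLC

open Cpt

variable {Δ : Type}

theorem sub_B (I J : Interp Δ) : Sub I J (false, nm 1 0) ↔ ∀ x, (ofI I).B x → (ofI J).B x := by
  simp only [Sub, Bool.false_eq_true, if_false, ofI]

theorem sub_G (I J : Interp Δ) : Sub I J (false, nm 0 0) ↔ ∀ x, (ofI I).G x → (ofI J).G x := by
  simp only [Sub, Bool.false_eq_true, if_false, ofI]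

theorem sub_X (I J : Interp Δ) (p : Bool) (τ : Sq) : Sub I J (true, rX p τ) ↔
    ∀ x y, (ofI I).X p τ x y → (ofI J).X p τ x y := by
  simp only [Sub, if_true, ofI]

theorem sub_Y (I J : Interp Δ) (p : Bool) (τ : Sq) : Sub I J (true, rY p τ) ↔
    ∀ x y, (ofI I).Y p τ x y → (ofI J).Y p τ x y := by
  simp only [Sub, if_true, ofI]

theorem prec_iff {W : List Sq} {p q : Sym} : (q, p) ∈ (pat W).prec ↔
    q = (false, nm 1 0) ∧ p ∈ W.flatMap rls := by
  simp only [pat, List.mem_map, Prod.mk.injEq]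
  constructor
  · rintro ⟨r, h1, h2, rfl⟩
    exact ⟨h2.symm, h1⟩
  · rintro ⟨rfl, h⟩
    exact ⟨p, h, rfl, rfl⟩

theorem not_prec_B {W : List Sq} {q : Sym} : (q, ((false, nm 1 0) : Sym)) ∉ (pat W).prec := by
  rw [prec_iff]
  rintro ⟨_, h⟩
  obtain ⟨τ, _, p, h | h⟩ := mem_rls.1 h <;> simp at h

theorem mini_iff {W : List Sq} {p : Sym} : p ∈ (pat W).mini ↔
    p = (false, nm 1 0) ∨ p ∈ W.flatMap rls := by
  simp only [pat, List.mem_cons]

/-- parity -/
def par (x : ℤ × ℕ) : Bool := decide ((x.1 + x.2) % 2 = 1)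

theorem par_x (x : ℤ × ℕ) : par (x.1 + 1, x.2) = !par x := by
  unfold par
  rw [← decide_not]
  apply decide_eq_decide.2
  simp only
  omega

theorem par_y (x : ℤ × ℕ) : par (x.1, x.2 + 1) = !par x := by
  unfold par
  rw [← decide_not]
  apply decide_eq_decide.2
  simp only
  push_cast
  omega

/-- the grid -/
def grd (τ : ℤ → ℕ → Sq) : Mod (ℤ × ℕ) where
  G := fun _ => True
  B := fun x => x = (0, 0)
  D := fun _ => False
  P := fun p x => par x = p
  N := fun m x => m = 2 ∧ x = (0, 0)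
  E := fun m _ => m = 2
  T := fun σ x => τ x.1 x.2 = σ
  t := fun m _ y => m = 2 ∧ y = (0, 0)
  s := fun _ _ => False
  X := fun p σ x y => par x = p ∧ τ x.1 x.2 = σ ∧ y = (x.1 + 1, x.2)
  Y := fun p σ x y => par x = p ∧ τ x.1 x.2 = σ ∧ y = (x.1, x.2 + 1)
  ind := fun n => ((n : ℤ), 0)

theorem toNat_ne (q : Bool) : q.toNat ≠ 2 := by cases q <;> simp

theorem grd_AM (W : List Sq) (τ : ℤ → ℕ → Sq) (hm : ∀ i j, τ i j ∈ W)
    (hH : ∀ i j, (τ i j).1 = (τ (i + 1) j).2.2.1) (hV : ∀ i j, (τ i j).2.1 = (τ i (j + 1)).2.2.2) :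
    AM W (grd τ) := by
  constructor
  · exact fun x => Or.inr (Or.inr rfl)
  · exact fun m _ x hx => ⟨(0, 0), hx, rfl⟩
  · rintro m _ x ⟨y, h1, h2⟩
    exact ⟨h2, h1, h2⟩
  · rintro x ⟨h, _⟩
    exact absurd h.1 (by omega)
  · rintro x ⟨h, _⟩
    exact absurd h.1 (by omega)
  · rintro x ⟨h, _⟩
    exact absurd h.1 (by omega)
  · rintro x (h | h)
    · exact absurd h (show ¬ (0 = 2) by omega)
    · exact absurd h (show ¬ (1 = 2) by omega)
  · rintro x ⟨y, hy⟩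
    exact hy.elim
  · rintro x ⟨h1, h2⟩
    have h1' : par x = false := h1
    have h2' : par x = true := h2
    rw [h1'] at h2'
    exact absurd h2' (by simp)
  · intro x _ _
    exact ⟨τ x.1 x.2, hm _ _, par x, rfl, rfl⟩
  · intro p x _ hp
    have hp' : par x = p := hp
    refine ⟨τ (x.1 - 1) x.2, hm _ _, (x.1 - 1, x.2), ?_, rfl, ?_⟩
    · have := par_x (x.1 - 1, x.2)
      simp only at this
      rw [show x.1 - 1 + 1 = x.1 by ring] at this
      rw [← hp', this, Bool.not_not]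
    · simp
  · exact fun q x h => absurd h (toNat_ne q)
  · exact fun q x h => absurd h (toNat_ne q)
  · intro σ _ p x _ h1 h2
    exact ⟨⟨_, h1, h2, rfl⟩, ⟨_, h1, h2, rfl⟩⟩
  · rintro σ _ p x _ ⟨y, h1, h2, _⟩
    exact ⟨h1, h2⟩
  · rintro σ _ p x _ ⟨y, h1, h2, _⟩
    exact ⟨h1, h2⟩
  · rintro σ _ p x _ ⟨y, h1, h2, rfl⟩
    refine ⟨?_, τ (y.1 + 1) y.2, hm _ _, ?_, rfl⟩
    · rw [← h1]
      exact par_x y
    · rw [← h2]
      exact hH _ _
  · rintro σ _ p x _ ⟨y, h1, h2, rfl⟩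
    refine ⟨?_, τ y.1 (y.2 + 1), hm _ _, ?_, rfl⟩
    · rw [← h1]
      exact par_y y
    · rw [← h2]
      exact hV _ _
  · intro σ _ σ' _ x h1 h2
    exact h1.symm.trans h2
  · exact fun σ _ q x h => absurd h (toNat_ne q)
  · exact fun σ _ q x h => absurd h (toNat_ne q)
  · rfl
  · trivial
  · intro h
    have h1 : ((0 : ℕ) : ℤ) = ((1 : ℕ) : ℤ) := congrArg Prod.fst h
    simp at h1

theorem sat_of_til (W : List Sq) (q0 : Sq) (h : Til W q0) : CSat (c0 q0) (kb W) (pat W) := by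
  obtain ⟨τ, h0, hm, hH, hV⟩ := h
  have hA := grd_AM W τ hm hH hV
  have hof := of_to (grd τ)
  refine ⟨ℤ × ℕ, toI (grd τ), ⟨?_, ?_⟩, (0, 0), ?_⟩
  · rw [model_iff, hof]
    exact hA
  · intro J hL hJ
    rw [model_iff] at hJ
    obtain ⟨l1, l2, l3, p, l4, ⟨l5, l6⟩, _⟩ := hL
    -- the anchor
    have hSB : Sub J (toI (grd τ)) (false, nm 1 0) := by
      by_contra hn
      obtain ⟨q, hq, _⟩ := l3 _ (mini_iff.2 (Or.inl rfl)) hn
      exact not_prec_B hq
    have hB : ∀ x, (ofI J).B x → x = (0, 0) := by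
      rw [sub_B, hof] at hSB
      exact hSB
    have hBa : (ofI J).B (0, 0) := by
      have := hJ.ab
      have e : (ofI J).ind 0 = (0, 0) := by
        change J.ind 0 = _
        rw [l1]
        rfl
      rwa [e] at this
    have hSB' : Sub (toI (grd τ)) J (false, nm 1 0) := by
      rw [sub_B, hof]
      intro x hx
      have hx' : x = (0, 0) := hx
      rw [hx']
      exact hBa
    have hSR : ∀ r ∈ W.flatMap rls, Sub J (toI (grd τ)) r := by
      intro r hr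
      by_contra hn
      obtain ⟨q, hq, _, hq2⟩ := l3 _ (mini_iff.2 (Or.inr hr)) hn
      rw [prec_iff] at hq
      rw [hq.1] at hq2
      exact hq2 hSB'
    have hX : ∀ σ ∈ W, ∀ p x y, (ofI J).X p σ x y →
        par x = p ∧ τ x.1 x.2 = σ ∧ y = (x.1 + 1, x.2) := by
      intro σ hσ p
      have := hSR _ (mem_rls.2 ⟨σ, hσ, p, Or.inl rfl⟩)
      rw [sub_X, hof] at this
      exact this
    have hY : ∀ σ ∈ W, ∀ p x y, (ofI J).Y p σ x y →
        par x = p ∧ τ x.1 x.2 = σ ∧ y = (x.1, x.2 + 1) := by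
      intro σ hσ p
      have := hSR _ (mem_rls.2 ⟨σ, hσ, p, Or.inr rfl⟩)
      rw [sub_Y, hof] at this
      exact this
    have hG : ∀ x, (ofI J).G x := by
      have := (l2 _ (List.mem_singleton.2 rfl)).2
      rw [sub_G, hof] at this
      exact fun x => this x trivial
    obtain ⟨m, hm3, hE, hu⟩ := hJ.mode (0, 0) hB
    -- the role which is smaller
    have hpr : p ∈ W.flatMap rls := by
      rcases mini_iff.1 l4 with h | h
      · rw [h] at l6
        exact absurd hSB' l6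
      · exact h
    by_cases hm2 : m = 2
    · rw [hm2] at hE
      have key : ∀ x, (∃ y, (ofI J).X (par x) (τ x.1 x.2) x y) ∧
          ∃ y, (ofI J).Y (par x) (τ x.1 x.2) x y := by
        intro x
        obtain ⟨σ, hσ, p, h1, h2⟩ := hJ.g x (hG x) (hE x)
        obtain ⟨⟨y, hy⟩, ⟨z, hz⟩⟩ := hJ.su σ hσ p x (hE x) h1 h2
        obtain ⟨g1, g2, _⟩ := hX σ hσ p x y hy
        rw [g1, g2]
        exact ⟨⟨y, hy⟩, ⟨z, hz⟩⟩
      obtain ⟨σ, hσ, b, hp | hp⟩ := mem_rls.1 hpr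
      · apply l6
        rw [hp, sub_X, hof]
        rintro x y ⟨g1, g2, g3⟩
        obtain ⟨⟨y', hy'⟩, _⟩ := key x
        obtain ⟨_, _, k3⟩ := hX _ (hm _ _) _ _ _ hy'
        rw [g3, ← k3, ← g1, ← g2]
        exact hy'
      · apply l6
        rw [hp, sub_Y, hof]
        rintro x y ⟨g1, g2, g3⟩
        obtain ⟨_, ⟨y', hy'⟩⟩ := key x
        obtain ⟨_, _, k3⟩ := hY _ (hm _ _) _ _ _ hy'
        rw [g3, ← k3, ← g1, ← g2]
        exact hy'
    · obtain ⟨q, rfl⟩ : ∃ q : Bool, m = q.toNat := by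
        have : m = 0 ∨ m = 1 := by omega
        rcases this with rfl | rfl
        · exact ⟨false, rfl⟩
        · exact ⟨true, rfl⟩
      have h01 : (ofI J).E 0 (0, 0) ∨ (ofI J).E 1 (0, 0) := by
        cases q
        · exact Or.inl (hE _)
        · exact Or.inr (hE _)
      obtain ⟨y, hy⟩ := hJ.es (0, 0) h01
      have hD := hJ.sD y ⟨_, hy⟩
      obtain ⟨⟨σ1, hσ1, e1, he1⟩, ⟨σ2, hσ2, e2, he2⟩⟩ := hJ.d q y (hE y) hD
      obtain ⟨_, _, r1⟩ := hX _ hσ1 _ _ _ he1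
      obtain ⟨_, _, r2⟩ := hY _ hσ2 _ _ _ he2
      obtain ⟨σ3, hσ3, f1, hf1⟩ := hJ.dx σ1 hσ1 q e1 (hE e1) ⟨_, he1⟩
      obtain ⟨σ4, hσ4, f2, hf2⟩ := hJ.dy σ2 hσ2 q e2 (hE e2) ⟨_, he2⟩
      obtain ⟨_, _, r3⟩ := hY _ hσ3 _ _ _ hf1
      obtain ⟨_, _, r4⟩ := hX _ hσ4 _ _ _ hf2
      have hff : f1 = f2 := by
        rw [r3, r4, r1, r2]
      refine hJ.bad q f1 (hE f1) ⟨σ3, hσ3, e1, hf1⟩ ⟨σ4, hσ4, e2, ?_⟩
      rw [hff]
      exact hf2
  · have h1 : (ofI (toI (grd τ))).E 2 (0, 0) := by rw [hof]; rfl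
    have h2 : (ofI (toI (grd τ))).P false (0, 0) := by
      rw [hof]
      change par (0, 0) = false
      simp [par]
    have h3 : (ofI (toI (grd τ))).T q0 (0, 0) := by
      rw [hof]
      exact h0
    exact ⟨h1, h2, h3⟩

end Pool.Agent.Q230.DLC
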