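import Mathlib
import Pool.Agent.Q230.DLC.Fwd

/-!
# A model of the circumscribed knowledge base gives a tiling
-/

set_option autoImplicit false

namespace Pool.Agent.Q230.DLC

open Cpt

variable {Δ : Type}

/-- A model in a defect mode. -/
def dfct (M : Mod Δ) (q : Bool) (a d e1 f1 e2 f2 : Δ) (s1 s2 s3 s4 : Sq) : Mod Δ where
  G := M.G
  B := fun x => x = a
  D := fun x => x = d
  P := fun _ _ => False
  N := fun m x => m = q.toNat ∧ x = a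
  E := fun m _ => m = q.toNat
  T := fun _ _ => False
  t := fun m _ y => m = q.toNat ∧ y = a
  s := fun _ y => y = d
  X := fun p σ x y => (p = q ∧ σ = s1 ∧ x = d ∧ y = e1) ∨ (p = !q ∧ σ = s4 ∧ x = e2 ∧ y = f2)
  Y := fun p σ x y => (p = q ∧ σ = s2 ∧ x = d ∧ y = e2) ∨ (p = !q ∧ σ = s3 ∧ x = e1 ∧ y = f1)
  ind := M.ind

theorem toNat_inj {p q : Bool} (h : p.toNat = q.toNat) : p = q := by
  cases p <;> cases q <;> simp_all

theorem dfct_AM {W : List Sq} {M : Mod Δ} {q : Bool} {d e1 f1 e2 f2 : Δ} {s1 s2 s3 s4 : Sq}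
    (h1 : s1 ∈ W) (h2 : s2 ∈ W) (h3 : s3 ∈ W) (h4 : s4 ∈ W) (hf : f1 ≠ f2)
    (hg : M.G (M.ind 1)) (hne : M.ind 0 ≠ M.ind 1) :
    AM W (dfct M q (M.ind 0) d e1 f1 e2 f2 s1 s2 s3 s4) := by
  have n2 : ∀ {C : Prop}, 2 = q.toNat → C := fun h => absurd h.symm (toNat_ne q)
  have nq : ∀ {C : Prop}, q = !q → C := fun h => by cases q <;> simp at h
  have nq' : ∀ {C : Prop}, (!q) = q → C := fun h => by cases q <;> simp at h
  constructor
  · intro x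
    cases q
    · exact Or.inl rfl
    · exact Or.inr (Or.inl rfl)
  · exact fun m _ x hx => ⟨M.ind 0, hx, rfl⟩
  · rintro m _ x ⟨y, g1, g2⟩
    exact ⟨g2, g1, g2⟩
  · rintro x ⟨⟨g1, _⟩, ⟨g2, _⟩⟩
    omega
  · rintro x ⟨⟨g1, _⟩, ⟨g2, _⟩⟩
    omega
  · rintro x ⟨⟨g1, _⟩, ⟨g2, _⟩⟩
    omega
  · exact fun x _ => ⟨d, rfl⟩
  · rintro x ⟨y, hy⟩
    exact hy
  · rintro x ⟨h, _⟩
    exact h
  · exact fun x _ h => n2 h
  · exact fun p x h => n2 h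
  · intro q' x hq hD
    have e : q' = q := toNat_inj hq
    subst e
    have hx : x = d := hD
    subst hx
    exact ⟨⟨s1, h1, e1, Or.inl ⟨rfl, rfl, rfl, rfl⟩⟩, ⟨s2, h2, e2, Or.inl ⟨rfl, rfl, rfl, rfl⟩⟩⟩
  · rintro q' x hq ⟨σ, _, y, hy⟩ ⟨σ', _, y', hy'⟩
    have e : q' = q := toNat_inj hq
    subst e
    apply hf
    rcases hy with ⟨g, _⟩ | ⟨_, _, _, g⟩
    · exact nq' g
    · rcases hy' with ⟨g', _⟩ | ⟨_, _, _, g'⟩
      · exact nq' g'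
      · rw [← g, ← g']
  · exact fun σ _ p x h => n2 h
  · exact fun σ _ p x h => n2 h
  · exact fun σ _ p x h => n2 h
  · exact fun σ _ p x h => n2 h
  · exact fun σ _ p x h => n2 h
  · exact fun σ _ σ' _ x h => h.elim
  · rintro σ _ q' x hq ⟨y, hy⟩
    have e : q' = q := toNat_inj hq
    subst e
    rcases hy with ⟨_, _, _, g⟩ | ⟨g, _⟩
    · exact ⟨s3, h3, f1, Or.inr ⟨rfl, rfl, g, rfl⟩⟩
    · exact nq g
  · rintro σ _ q' x hq ⟨y, hy⟩
    have e : q' = q := toNat_inj hq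
    subst e
    rcases hy with ⟨_, _, _, g⟩ | ⟨g, _⟩
    · exact ⟨s4, h4, f2, Or.inr ⟨rfl, rfl, g, rfl⟩⟩
    · exact nq g
  · rfl
  · exact hg
  · exact hne

/-- A grid in a graph with confluence. -/
theorem grid (TE : Δ → Prop) (XE YE : Δ → Δ → Prop) (x0 : Δ) (h0 : TE x0)
    (hr : ∀ x, TE x → ∃ y, XE x y) (hl : ∀ x, TE x → ∃ y, XE y x)
    (hu : ∀ x, TE x → ∃ y, YE x y) (hx : ∀ x y, XE x y → TE x ∧ TE y)
    (hy : ∀ x y, YE x y → TE y)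
    (hc : ∀ d e1 f1 e2 f2, XE d e1 → YE e1 f1 → YE d e2 → XE e2 f2 → f1 = f2) :
    ∃ F : ℤ → ℕ → Δ, F 0 0 = x0 ∧ ∀ i j, XE (F i j) (F (i + 1) j) ∧
      YE (F i j) (F i (j + 1)) := by
  classical
  have hr' : ∀ x, ∃ y, TE x → XE x y := fun x => by
    by_cases h : TE x
    · obtain ⟨y, hy⟩ := hr x h
      exact ⟨y, fun _ => hy⟩
    · exact ⟨x, fun g => absurd g h⟩
  have hl' : ∀ x, ∃ y, TE x → XE y x := fun x => by
    by_cases h : TE x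
    · obtain ⟨y, hy⟩ := hl x h
      exact ⟨y, fun _ => hy⟩
    · exact ⟨x, fun g => absurd g h⟩
  have hu' : ∀ x, ∃ y, TE x → YE x y := fun x => by
    by_cases h : TE x
    · obtain ⟨y, hy⟩ := hu x h
      exact ⟨y, fun _ => hy⟩
    · exact ⟨x, fun g => absurd g h⟩
  choose r hr1 using hr'
  choose l hl1 using hl'
  choose u hu1 using hu'
  have hrT : ∀ n : ℕ, TE (r^[n] x0) := by
    intro n
    induction n with
    | zero => exact h0
    | succ n ih =>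
      rw [Function.iterate_succ_apply']
      exact (hx _ _ (hr1 _ ih)).2
  have hlT : ∀ n : ℕ, TE (l^[n] x0) := by
    intro n
    induction n with
    | zero => exact h0
    | succ n ih =>
      rw [Function.iterate_succ_apply']
      exact (hx _ _ (hl1 _ ih)).1
  let R : ℤ → Δ := fun i => if 0 ≤ i then r^[i.toNat] x0 else l^[(-i).toNat] x0
  have hR : ∀ i, XE (R i) (R (i + 1)) := by
    intro i
    by_cases h : 0 ≤ i
    · simp only [R]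
      rw [if_pos h, if_pos (by omega), show (i + 1).toNat = i.toNat + 1 by omega,
        Function.iterate_succ_apply']
      exact hr1 _ (hrT _)
    · obtain ⟨n, hn⟩ : ∃ n : ℕ, (-i).toNat = n + 1 := ⟨(-i).toNat - 1, by omega⟩
      have e1 : R i = l (l^[n] x0) := by
        simp only [R]
        rw [if_neg h, hn, Function.iterate_succ_apply']
      have e2 : R (i + 1) = l^[n] x0 := by
        simp only [R]
        by_cases h1 : 0 ≤ i + 1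
        · have : n = 0 := by omega
          rw [if_pos h1, show (i + 1).toNat = 0 by omega, this]
          rfl
        · rw [if_neg h1]
          congr 1
          have : (-(i + 1)).toNat = n := by omega
          rw [this]
      rw [e1, e2]
      exact hl1 _ (hlT _)
  let F : ℤ → ℕ → Δ := fun i j => u^[j] (R i)
  have hF0 : ∀ i, F i 0 = R i := fun i => rfl
  have hFs : ∀ i j, F i (j + 1) = u (F i j) := fun i j => Function.iterate_succ_apply' _ _ _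
  have key : ∀ j i, XE (F i j) (F (i + 1) j) := by
    intro j
    induction j with
    | zero => exact hR
    | succ j ih =>
      intro i
      have h1 : YE (F i j) (F i (j + 1)) := by
        rw [hFs]
        exact hu1 _ (hx _ _ (ih i)).1
      have h2 : YE (F (i + 1) j) (F (i + 1) (j + 1)) := by
        rw [hFs]
        exact hu1 _ (hx _ _ (ih i)).2
      have h3 : TE (F i (j + 1)) := hy _ _ h1
      have h4 := hr1 _ h3
      rw [hc _ _ _ _ _ (ih i) h2 h1 h4]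
      exact h4
  refine ⟨F, ?_, fun i j => ⟨key j i, ?_⟩⟩
  · rw [hF0]
    simp [R]
  · rw [hFs]
    exact hu1 _ (hx _ _ (key j i)).1

theorem til_of_sat (W : List Sq) (q0 : Sq) (hq0 : q0 ∈ W) (h : CSat (c0 q0) (kb W) (pat W)) :
    Til W q0 := by
  obtain ⟨Δ, I, ⟨hI, hmin⟩, x0, hx0⟩ := h
  rw [model_iff] at hI
  have hind : (ofI I).ind = I.ind := rfl
  -- only one anchor
  have hB : ∀ x, (ofI I).B x → x = I.ind 0 := by
    intro b' hb'
    by_contra hne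
    have hA := dfct_AM (W := W) (M := ofI I) (q := false) (d := I.ind 0) (e1 := I.ind 0)
      (f1 := I.ind 0) (e2 := I.ind 0) (f2 := I.ind 1) hq0 hq0 hq0 hq0 hI.ne hI.ag hI.ne
    refine hmin (toI (dfct (ofI I) false (I.ind 0) (I.ind 0) (I.ind 0) (I.ind 0) (I.ind 0)
      (I.ind 1) q0 q0 q0 q0)) ?_ (by rw [model_iff, of_to]; exact hA)
    have hs1 : Sub (toI (dfct (ofI I) false (I.ind 0) (I.ind 0) (I.ind 0) (I.ind 0) (I.ind 0)
      (I.ind 1) q0 q0 q0 q0)) I (false, nm 1 0) := by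
      rw [sub_B, of_to]
      intro x hx
      have hx' : x = I.ind 0 := hx
      rw [hx']
      exact hI.ab
    have hs2 : ¬ Sub I (toI (dfct (ofI I) false (I.ind 0) (I.ind 0) (I.ind 0) (I.ind 0)
      (I.ind 0) (I.ind 1) q0 q0 q0 q0)) (false, nm 1 0) := by
      rw [sub_B, of_to]
      exact fun hs => hne (hs b' hb')
    refine ⟨rfl, ?_, ?_, (false, nm 1 0), mini_iff.2 (Or.inl rfl), ⟨hs1, hs2⟩, ?_⟩
    · intro p hp
      have hp' : p = (false, nm 0 0) := List.mem_singleton.1 hp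
      rw [hp', sub_G, sub_G, of_to]
      exact ⟨fun x hx => hx, fun x hx => hx⟩
    · intro p hp hn
      rcases mini_iff.1 hp with hp | hp
      · rw [hp] at hn
        exact absurd hs1 hn
      · exact ⟨(false, nm 1 0), prec_iff.2 ⟨rfl, hp⟩, hs1, hs2⟩
    · exact fun q hq => absurd hq not_prec_B
  -- the mode
  obtain ⟨m, hm3, hE, hu⟩ := hI.mode (I.ind 0) hB
  obtain ⟨hx1, hx2, hx3⟩ := hx0
  have hm2 : 2 = m := hu 2 (by omega) x0 hx1
  rw [← hm2] at hE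
  clear hm2 hu hm3
  have np : ∀ x p q, (ofI I).P p x → (ofI I).P q x → p = q := by
    intro x p q hp hq
    cases p <;> cases q
    · rfl
    · exact absurd ⟨hp, hq⟩ (hI.pp x)
    · exact absurd ⟨hq, hp⟩ (hI.pp x)
    · rfl
  -- confluence
  have conf : ∀ (q : Bool) (d e1 f1 e2 f2 : Δ), ∀ s1 ∈ W, ∀ s2 ∈ W, ∀ s3 ∈ W, ∀ s4 ∈ W,
      (ofI I).X q s1 d e1 → (ofI I).Y q s2 d e2 → (ofI I).Y (!q) s3 e1 f1 →
      (ofI I).X (!q) s4 e2 f2 → f1 = f2 := by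
    intro q d e1 f1 e2 f2 s1 h1 s2 h2 s3 h3 s4 h4 g1 g2 g3 g4
    by_contra hne
    have hA := dfct_AM (W := W) (M := ofI I) (q := q) (d := d) (e1 := e1)
      (f1 := f1) (e2 := e2) (f2 := f2) h1 h2 h3 h4 hne hI.ag hI.ne
    refine hmin (toI (dfct (ofI I) q (I.ind 0) d e1 f1 e2 f2 s1 s2 s3 s4)) ?_
      (by rw [model_iff, of_to]; exact hA)
    have hs1 : Sub (toI (dfct (ofI I) q (I.ind 0) d e1 f1 e2 f2 s1 s2 s3 s4)) I
        (false, nm 1 0) := by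
      rw [sub_B, of_to]
      intro x hx
      have hx' : x = I.ind 0 := hx
      rw [hx']
      exact hI.ab
    have hs2 : Sub I (toI (dfct (ofI I) q (I.ind 0) d e1 f1 e2 f2 s1 s2 s3 s4))
        (false, nm 1 0) := by
      rw [sub_B, of_to]
      exact fun x hx => hB x hx
    have hs3 : ∀ r ∈ W.flatMap rls,
        Sub (toI (dfct (ofI I) q (I.ind 0) d e1 f1 e2 f2 s1 s2 s3 s4)) I r := by
      intro r hr
      obtain ⟨σ, _, p, rfl | rfl⟩ := mem_rls.1 hr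
      · rw [sub_X, of_to]
        rintro x y (⟨rfl, rfl, rfl, rfl⟩ | ⟨rfl, rfl, rfl, rfl⟩)
        · exact g1
        · exact g4
      · rw [sub_Y, of_to]
        rintro x y (⟨rfl, rfl, rfl, rfl⟩ | ⟨rfl, rfl, rfl, rfl⟩)
        · exact g2
        · exact g3
    have hs4 : ∃ r ∈ W.flatMap rls,
        ¬ Sub I (toI (dfct (ofI I) q (I.ind 0) d e1 f1 e2 f2 s1 s2 s3 s4)) r := by
      have aux : ∀ f, f ≠ d → (ofI I).P q f → (∃ σ ∈ W, (ofI I).T σ f) →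
          ∃ r ∈ W.flatMap rls,
          ¬ Sub I (toI (dfct (ofI I) q (I.ind 0) d e1 f1 e2 f2 s1 s2 s3 s4)) r := by
        rintro f hf hP ⟨σ, hσ, hT⟩
        obtain ⟨⟨y, hy⟩, _⟩ := hI.su σ hσ q f (hE f) hP hT
        refine ⟨(true, rX q σ), mem_rls.2 ⟨σ, hσ, q, Or.inl rfl⟩, ?_⟩
        rw [sub_X, of_to]
        intro hs
        rcases hs f y hy with ⟨_, _, k, _⟩ | ⟨k, _⟩
        · exact hf k
        · cases q <;> simp at k
      obtain ⟨k1, σ1, k2, _, k3⟩ := hI.yt s3 h3 (!q) f1 (hE _) ⟨_, g3⟩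
      obtain ⟨k4, σ2, k5, _, k6⟩ := hI.xt s4 h4 (!q) f2 (hE _) ⟨_, g4⟩
      rw [Bool.not_not] at k1 k4
      by_cases hf : f1 = d
      · exact aux f2 (fun h => hne (hf.trans h.symm)) k4 ⟨σ2, k5, k6⟩
      · exact aux f1 hf k1 ⟨σ1, k2, k3⟩
    obtain ⟨r, hr, hs4⟩ := hs4
    refine ⟨rfl, ?_, ?_, r, mini_iff.2 (Or.inr hr), ⟨hs3 r hr, hs4⟩, ?_⟩
    · intro p hp
      have hp' : p = (false, nm 0 0) := List.mem_singleton.1 hp
      rw [hp', sub_G, sub_G, of_to]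
      exact ⟨fun x hx => hx, fun x hx => hx⟩
    · intro p hp hn
      rcases mini_iff.1 hp with hp | hp
      · rw [hp] at hn
        exact absurd hs1 hn
      · exact absurd (hs3 p hp) hn
    · intro p hp
      rw [(prec_iff.1 hp).1]
      exact ⟨hs1, hs2⟩
  -- the grid
  obtain ⟨F, hF0, hF⟩ := grid (Δ := Δ) (fun x => ∃ p, ∃ σ ∈ W, (ofI I).P p x ∧ (ofI I).T σ x)
    (fun x y => ∃ p, ∃ σ ∈ W, (ofI I).X p σ x y) (fun x y => ∃ p, ∃ σ ∈ W, (ofI I).Y p σ x y)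
    x0 ⟨false, q0, hq0, hx2, hx3⟩
    (by
      rintro x ⟨p, σ, hσ, h1, h2⟩
      obtain ⟨⟨y, hy⟩, _⟩ := hI.su σ hσ p x (hE x) h1 h2
      exact ⟨y, p, σ, hσ, hy⟩)
    (by
      rintro x ⟨p, σ, hσ, h1, h2⟩
      obtain ⟨τ, hτ, y, hy⟩ := hI.pr p x (hE x) h1
      exact ⟨y, !p, τ, hτ, hy⟩)
    (by
      rintro x ⟨p, σ, hσ, h1, h2⟩
      obtain ⟨_, ⟨y, hy⟩⟩ := hI.su σ hσ p x (hE x) h1 h2
      exact ⟨y, p, σ, hσ, hy⟩)
    (by
      rintro x y ⟨p, σ, hσ, h⟩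
      obtain ⟨h1, h2⟩ := hI.xs σ hσ p x (hE x) ⟨y, h⟩
      obtain ⟨h3, τ, hτ, _, h4⟩ := hI.xt σ hσ p y (hE y) ⟨x, h⟩
      exact ⟨⟨p, σ, hσ, h1, h2⟩, ⟨!p, τ, hτ, h3, h4⟩⟩)
    (by
      rintro x y ⟨p, σ, hσ, h⟩
      obtain ⟨h3, τ, hτ, _, h4⟩ := hI.yt σ hσ p y (hE y) ⟨x, h⟩
      exact ⟨!p, τ, hτ, h3, h4⟩)
    (by
      rintro d e1 f1 e2 f2 ⟨p1, s1, h1, g1⟩ ⟨p3, s3, h3, g3⟩ ⟨p2, s2, h2, g2⟩ ⟨p4, s4, h4, g4⟩
      have k1 := (hI.xs s1 h1 p1 d (hE _) ⟨_, g1⟩).1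
      have k2 := (hI.ys s2 h2 p2 d (hE _) ⟨_, g2⟩).1
      have k3 := (hI.ys s3 h3 p3 e1 (hE _) ⟨_, g3⟩).1
      have k4 := (hI.xs s4 h4 p4 e2 (hE _) ⟨_, g4⟩).1
      have k5 := (hI.xt s1 h1 p1 e1 (hE _) ⟨_, g1⟩).1
      have k6 := (hI.yt s2 h2 p2 e2 (hE _) ⟨_, g2⟩).1
      have e12 : p2 = p1 := np _ _ _ k2 k1
      have e3 : p3 = !p1 := np _ _ _ k3 k5
      have e4 : p4 = !p2 := np _ _ _ k4 k6
      subst e12 e3 e4
      exact conf _ d e1 f1 e2 f2 s1 h1 s2 h2 s3 h3 s4 h4 g1 g2 g3 g4)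
  have hT : ∀ i j, ∃ σ ∈ W, (ofI I).T σ (F i j) := by
    intro i j
    obtain ⟨p, σ, hσ, h⟩ := (hF i j).1
    exact ⟨σ, hσ, (hI.xs σ hσ p _ (hE _) ⟨_, h⟩).2⟩
  choose τ hτW hτT using hT
  refine ⟨τ, ?_, hτW, ?_, ?_⟩
  · refine hI.un _ (hτW 0 0) _ hq0 x0 ?_ hx3
    rw [← hF0]
    exact hτT 0 0
  · intro i j
    obtain ⟨p, σ, hσ, h⟩ := (hF i j).1
    have h1 := (hI.xs σ hσ p _ (hE _) ⟨_, h⟩).2
    obtain ⟨_, ρ, hρ, h2, h3⟩ := hI.xt σ hσ p _ (hE _) ⟨_, h⟩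
    rw [hI.un _ (hτW i j) _ hσ _ (hτT i j) h1, hI.un _ (hτW (i + 1) j) _ hρ _ (hτT _ _) h3]
    exact h2
  · intro i j
    obtain ⟨p, σ, hσ, h⟩ := (hF i j).2
    have h1 := (hI.ys σ hσ p _ (hE _) ⟨_, h⟩).2
    obtain ⟨_, ρ, hρ, h2, h3⟩ := hI.yt σ hσ p _ (hE _) ⟨_, h⟩
    rw [hI.un _ (hτW i j) _ hσ _ (hτT i j) h1, hI.un _ (hτW i (j + 1)) _ hρ _ (hτT _ _) h3]
    exact h2

end Pool.Agent.Q230.DLC
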