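import Mathlib
import Pool.Agent.Q230.DLC.Src

/-!
# The existence of a tiling is undecidable
-/

set_option autoImplicit false
set_option linter.unusedSectionVars false

namespace Pool.Agent.Q230.DLC

open Turing Pool.Agent.Helper948 Pool.Agent.Helper948.Tile

theorem exists_seq {σ : Type} (f : σ → Option σ) (a : σ)
    (h : ¬ (StateTransition.eval f a).Dom) :
    ∃ c : ℕ → σ, c 0 = a ∧ ∀ k, f (c k) = some (c (k + 1)) := by
  have hne : ∀ x, StateTransition.Reaches f a x → f x ≠ none := by
    intro x hx h0
    apply h
    rw [Part.dom_iff_mem]
    exact ⟨x, StateTransition.mem_eval.2 ⟨hx, h0⟩⟩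
  let c : ℕ → σ := fun k => Nat.rec a (fun _ x => (f x).getD x) k
  have hc1 : ∀ k, c (k + 1) = (f (c k)).getD (c k) := fun k => rfl
  have hs : ∀ k, StateTransition.Reaches f a (c k) ∧ f (c k) = some (c (k + 1)) := by
    have aux : ∀ k, StateTransition.Reaches f a (c k) → f (c k) = some (c (k + 1)) := by
      intro k hk
      rw [hc1]
      cases hf : f (c k) with
      | none => exact absurd hf (hne _ hk)
      | some y => rfl
    intro k
    induction k with
    | zero => exact ⟨Relation.ReflTransGen.refl, aux 0 Relation.ReflTransGen.refl⟩
    | succ k ih =>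
      have h1 : StateTransition.Reaches f a (c (k + 1)) :=
        ih.1.tail (show c (k + 1) ∈ f (c k) by rw [ih.2]; rfl)
      exact ⟨h1, aux (k + 1) h1⟩
  exact ⟨c, rfl, fun k => (hs k).2⟩

variable {Γ Λ : Type} [Inhabited Γ] [Inhabited Λ]

/-- positions of the head -/
def posZ (M : TM0.Machine Γ Λ) (c : ℕ → TM0.Cfg Γ Λ) : ℕ → ℤ
  | 0 => 0
  | k + 1 => match M (c k).q (c k).Tape.head with
    | some (_, .move .right) => posZ M c k + 1
    | some (_, .move .left) => posZ M c k - 1
    | _ => posZ M c k

/-- east colours -/
def eC (M : TM0.Machine Γ Λ) (c : ℕ → TM0.Cfg Γ Λ) (len : ℕ) (x : ℤ) : ℕ → HC Λ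
  | 0 => .init (min (x + 1).toNat len)
  | k + 1 => match M (c k).q (c k).Tape.head with
    | some (q', .move .right) => if x = posZ M c k then .mr q' else .m0
    | some (q', .move .left) => if x + 1 = posZ M c k then .ml q' else .m0
    | _ => .m0

/-- the absolute tape -/
def absZ (M : TM0.Machine Γ Λ) (c : ℕ → TM0.Cfg Γ Λ) (k : ℕ) (z : ℤ) : Γ :=
  (c k).Tape.nth (z - posZ M c k)

open Classical in
/-- north colours -/
noncomputable def nC (M : TM0.Machine Γ Λ) (c : ℕ → TM0.Cfg Γ Λ) (x : ℤ) (k : ℕ) : VC Γ Λ :=
  if x = posZ M c k then .hd (c k).q (c k).Tape.head else .sy (absZ M c k x)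

theorem absZ_pos (M : TM0.Machine Γ Λ) (c : ℕ → TM0.Cfg Γ Λ) (k : ℕ) :
    absZ M c k (posZ M c k) = (c k).Tape.head := by
  unfold absZ
  rw [sub_self, Tape.nth_zero]

theorem exists_half (M : TM0.Machine Γ Λ) (l : List Γ) (hl : 0 < l.length)
    (c : ℕ → TM0.Cfg Γ Λ) (h0 : c 0 = TM0.init l)
    (hc : ∀ k, TM0.step M (c k) = some (c (k + 1))) (x : ℤ) (y : ℕ) :
    WT M l (some (eC M c l.length x y)) (some (nC M c x y)) (some (eC M c l.length (x - 1) y))
      (if y = 0 then none else some (nC M c x (y - 1))) := by
  cases y with
  | zero =>
    rw [if_pos rfl]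
    have hr := init_repZ (Λ := Λ) l
    have hq : (c 0).q = default := by rw [h0]; rfl
    have hz : ∀ z, absZ M c 0 z = if z < 0 then default else l.getI z.toNat := by
      intro z
      have := hr z
      rw [← h0] at this
      exact this
    have hp : posZ M c 0 = 0 := rfl
    have hh : (c 0).Tape.head = l.getI 0 := by
      have := absZ_pos M c 0
      rw [hp, hz] at this
      simpa using this.symm
    have he : ∀ u, eC M c l.length u 0 = .init (min (u + 1).toNat l.length) := fun u => rfl
    rw [he, he, show x - 1 + 1 = x by ring]
    unfold nC
    rw [hp, hq, hh, hz]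
    rcases lt_trichotomy x 0 with hx | hx | hx
    · rw [if_neg (by omega), if_pos hx, show min (x + 1).toNat l.length = 0 by omega,
        show min x.toNat l.length = 0 by omega]
      exact WT.blankL
    · rw [if_pos hx, show min (x + 1).toNat l.length = 1 by omega,
        show min x.toNat l.length = 0 by omega]
      exact WT.first
    · rw [if_neg (by omega), if_neg (by omega)]
      by_cases hk : x.toNat < l.length
      · rw [show min (x + 1).toNat l.length = x.toNat + 1 by omega,
          show min x.toNat l.length = x.toNat by omega]
        exact WT.sym _ (by omega) hk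
      · rw [show min (x + 1).toNat l.length = l.length by omega,
          show min x.toNat l.length = l.length by omega, List.getI_eq_default _ (by omega)]
        exact WT.blankR
  | succ k =>
    rw [if_neg (by omega), Nat.add_sub_cancel]
    have hck := hc k
    cases hM : M (c k).q (c k).Tape.head with
    | none =>
      exfalso
      revert hck
      generalize c k = ck at hM
      obtain ⟨q, T⟩ := ck
      simp only at hM
      simp [TM0.step, hM]
    | some qa =>
      obtain ⟨q', st⟩ := qa
      cases st with
      | write b =>
        have hk1 : c (k + 1) = ⟨q', (c k).Tape.write b⟩ := by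
          revert hck
          generalize c k = ck at hM
          obtain ⟨q, T⟩ := ck
          simp only at hM
          simp only [TM0.step, hM, Option.map_some, Option.some.injEq]
          exact fun h => h.symm
        have he : ∀ u, eC M c l.length u (k + 1) = .m0 := by
          intro u
          simp only [eC, hM]
        have hp : posZ M c (k + 1) = posZ M c k := by
          simp only [posZ, hM]
        rw [he, he]
        by_cases hx : x = posZ M c k
        · have e1 : nC M c x (k + 1) = .hd q' b := by
            unfold nC
            rw [hp, if_pos hx, hk1]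
            rfl
          have e2 : nC M c x k = .hd (c k).q (c k).Tape.head := by
            unfold nC
            rw [if_pos hx]
          rw [e1, e2]
          exact WT.wr _ _ _ _ hM
        · have e1 : nC M c x (k + 1) = .sy (absZ M c k x) := by
            unfold nC
            rw [hp, if_neg hx]
            unfold absZ
            rw [hk1, hp]
            change VC.sy (((c k).Tape.write b).nth _) = _
            rw [Tape.write_nth, if_neg (by omega)]
          have e2 : nC M c x k = .sy (absZ M c k x) := by
            unfold nC
            rw [if_neg hx]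
          rw [e1, e2]
          exact WT.keep _
      | move d =>
        have hk1 : c (k + 1) = ⟨q', (c k).Tape.move d⟩ := by
          revert hck
          generalize c k = ck at hM
          obtain ⟨q, T⟩ := ck
          simp only at hM
          simp only [TM0.step, hM, Option.map_some, Option.some.injEq]
          exact fun h => h.symm
        cases d with
        | right =>
          have he : ∀ u, eC M c l.length u (k + 1) = if u = posZ M c k then .mr q' else .m0 := by
            intro u
            simp only [eC, hM]
          have hp : posZ M c (k + 1) = posZ M c k + 1 := by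
            simp only [posZ, hM]
          have ha : ∀ z, absZ M c (k + 1) z = absZ M c k z := by
            intro z
            unfold absZ
            rw [hk1, hp]
            change ((c k).Tape.move .right).nth _ = _
            rw [Tape.move_right_nth]
            congr 1
            ring
          have e1 : nC M c x (k + 1) = if x = posZ M c k + 1 then .hd q' (absZ M c k x)
              else .sy (absZ M c k x) := by
            unfold nC
            rw [← absZ_pos M c (k + 1), ha, ha, hp, hk1]
            by_cases hx : x = posZ M c k + 1
            · rw [if_pos hx, if_pos hx, hx]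
            · rw [if_neg hx, if_neg hx]
          have e2 : nC M c x k = if x = posZ M c k then .hd (c k).q (c k).Tape.head
              else .sy (absZ M c k x) := by
            unfold nC
            by_cases hx : x = posZ M c k
            · rw [if_pos hx]
            · rw [if_neg hx]
          rw [he, he, e1, e2]
          by_cases hx : x = posZ M c k
          · rw [if_pos hx, if_neg (by omega), if_neg (by omega), if_pos hx, hx, absZ_pos]
            exact WT.mvR _ _ _ hM
          · by_cases hx1 : x = posZ M c k + 1
            · rw [if_neg hx, if_pos hx1, if_pos (by omega), if_neg hx]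
              exact WT.inL _ _
            · rw [if_neg hx, if_neg hx1, if_neg (by omega), if_neg hx]
              exact WT.keep _
        | left =>
          have he : ∀ u, eC M c l.length u (k + 1) =
              if u + 1 = posZ M c k then .ml q' else .m0 := by
            intro u
            simp only [eC, hM]
          have hp : posZ M c (k + 1) = posZ M c k - 1 := by
            simp only [posZ, hM]
          have ha : ∀ z, absZ M c (k + 1) z = absZ M c k z := by
            intro z
            unfold absZ
            rw [hk1, hp]
            change ((c k).Tape.move .left).nth _ = _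
            rw [Tape.move_left_nth]
            congr 1
            ring
          have e1 : nC M c x (k + 1) = if x = posZ M c k - 1 then .hd q' (absZ M c k x)
              else .sy (absZ M c k x) := by
            unfold nC
            rw [← absZ_pos M c (k + 1), ha, ha, hp, hk1]
            by_cases hx : x = posZ M c k - 1
            · rw [if_pos hx, if_pos hx, hx]
            · rw [if_neg hx, if_neg hx]
          have e2 : nC M c x k = if x = posZ M c k then .hd (c k).q (c k).Tape.head
              else .sy (absZ M c k x) := by
            unfold nC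
            by_cases hx : x = posZ M c k
            · rw [if_pos hx]
            · rw [if_neg hx]
          rw [he, he, e1, e2, show x - 1 + 1 = x by ring]
          by_cases hx : x = posZ M c k
          · rw [if_neg (by omega), if_neg (by omega), if_pos hx, if_pos hx, hx, absZ_pos]
            exact WT.mvL _ _ _ hM
          · by_cases hx1 : x = posZ M c k - 1
            · rw [if_pos (by omega), if_pos hx1, if_neg hx, if_neg hx]
              exact WT.inR _ _
            · rw [if_neg (by omega), if_neg hx1, if_neg hx, if_neg hx]
              exact WT.keep _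

/-- The squares which are not on the border. -/
def inner (W : List Sq) : List Sq :=
  W.filter (fun t => decide (t.1 ≠ 0 ∧ t.2.1 ≠ 0 ∧ t.2.2.1 ≠ 0))

theorem inner_pr : Primrec inner := by
  refine Primrec.listFilter ?_
  have h : ∀ {f : Sq → ℕ}, Primrec f → PrimrecPred (fun t : Sq => f t ≠ 0) := fun hf =>
    (Primrec.eq.comp hf (Primrec.const 0)).not
  exact (h Primrec.fst).and ((h (Primrec.fst.comp Primrec.snd)).and
    (h (Primrec.fst.comp (Primrec.snd.comp Primrec.snd))))

section

variable {a b : ℕ} (eG : Γ ≃ Fin a) (eL : Λ ≃ Fin b) (M : TM0.Machine Γ Λ) (l : List Γ)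
  (W : List Sq)

theorem oh_ne {c : Option (HC Λ)} : oh eL c ≠ 0 ↔ ∃ d, c = some d := by
  cases c with
  | none => simp [oh]
  | some d =>
    have := ch_pos eL d
    simp only [oh]
    constructor
    · exact fun _ => ⟨d, rfl⟩
    · intro _; omega

theorem ov_ne {c : Option (VC Γ Λ)} : ov eG eL c ≠ 0 ↔ ∃ d, c = some d := by
  cases c with
  | none => simp [ov]
  | some d =>
    have := cv_pos eG eL d
    simp only [ov]
    constructor
    · exact fun _ => ⟨d, rfl⟩
    · intro _; omega

theorem mem_inner (hW : ∀ t, t ∈ W ↔ ∃ e n w s, WT M l e n w s ∧ t = cd eG eL e n w s) (t : Sq) :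
    t ∈ inner W ↔ ∃ e n w s, WT M l (some e) (some n) (some w) s ∧
      t = cd eG eL (some e) (some n) (some w) s := by
  unfold inner
  rw [List.mem_filter, decide_eq_true_eq, hW]
  constructor
  · rintro ⟨⟨e, n, w, s, h1, rfl⟩, h2, h3, h4⟩
    obtain ⟨e', rfl⟩ := (oh_ne eL).1 h2
    obtain ⟨n', rfl⟩ := (ov_ne eG eL).1 h3
    obtain ⟨w', rfl⟩ := (oh_ne eL).1 h4
    exact ⟨e', n', w', s, h1, rfl⟩
  · rintro ⟨e, n, w, s, h1, rfl⟩
    exact ⟨⟨_, _, _, _, h1, rfl⟩, (oh_ne eL).2 ⟨_, rfl⟩, (ov_ne eG eL).2 ⟨_, rfl⟩,
      (oh_ne eL).2 ⟨_, rfl⟩⟩

theorem til_iff (hl : 0 < l.length)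
    (hW : ∀ t, t ∈ W ↔ ∃ e n w s, WT M l e n w s ∧ t = cd eG eL e n w s) :
    Til (inner W) (cd eG eL (some (.init 1)) (some (.hd default (l.getI 0)))
      (some (.init 0)) none) ↔
      ¬ (StateTransition.eval (TM0.step M) (TM0.init l)).Dom := by
  constructor
  · rintro ⟨τ, h0, hm, hH, hV⟩
    have h1 : ∀ i j, ∃ e n w s, WT M l (some e) (some n) (some w) s ∧
        τ i j = cd eG eL (some e) (some n) (some w) s :=
      fun i j => (mem_inner eG eL M l W hW _).1 (hm i j)
    choose e n w s h2 h3 using h1
    have hA : Arz M l e w n s := by
      refine ⟨h2, ?_, ?_, ?_, ?_, ?_⟩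
      · intro i j
        have := hH i j
        rw [h3, h3] at this
        simp only [cd] at this
        have := oh_inj eL this
        rwa [Option.some.injEq] at this
      · intro i j
        have := hV i j
        rw [h3, h3] at this
        simp only [cd] at this
        exact (ov_inj eG eL this).symm
      · have := congrArg (fun t : Sq => t.1) h0
        rw [h3] at this
        simp only [cd] at this
        have := oh_inj eL this
        rwa [Option.some.injEq] at this
      · have := congrArg (fun t : Sq => t.2.1) h0
        rw [h3] at this
        simp only [cd] at this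
        have := ov_inj eG eL this
        rwa [Option.some.injEq] at this
      · have := congrArg (fun t : Sq => t.2.2.1) h0
        rw [h3] at this
        simp only [cd] at this
        have := oh_inj eL this
        rwa [Option.some.injEq] at this
    exact hA.not_halts hl
  · intro hn
    obtain ⟨c, hc0, hc⟩ := exists_seq _ _ hn
    have key := exists_half M l hl c hc0 hc
    refine ⟨fun x y => cd eG eL (some (eC M c l.length x y)) (some (nC M c x y))
      (some (eC M c l.length (x - 1) y)) (if y = 0 then none else some (nC M c x (y - 1))),
      ?_, ?_, ?_, ?_⟩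
    · have h1 : eC M c l.length 0 0 = .init 1 := by
        change HC.init (min ((0 : ℤ) + 1).toNat l.length) = _
        congr 1
        have : ((0 : ℤ) + 1).toNat = 1 := rfl
        omega
      have h2 : eC M c l.length (0 - 1) 0 = .init 0 := by
        change HC.init (min ((0 : ℤ) - 1 + 1).toNat l.length) = _
        congr 1
      have h3 : nC M c 0 0 = .hd default (l.getI 0) := by
        unfold nC
        have hp : posZ M c 0 = 0 := rfl
        rw [hp, if_pos rfl, hc0]
        congr 1
        have := (init_repZ (Λ := Λ) l).head
        simpa using this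
      simp only [h1, h2, h3, if_true]
    · intro x y
      rw [mem_inner eG eL M l W hW]
      exact ⟨_, _, _, _, key x y, rfl⟩
    · intro x y
      simp only [cd]
      rw [show x + 1 - 1 = x by ring]
    · intro x y
      simp only [cd]
      rw [if_neg (by omega), Nat.add_sub_cancel]

end

/-- A computable family of sets of squares. -/
theorem source : ∃ (W : ℕ → List Sq) (q0 : Sq) (P : ℕ → Prop),
    Computable W ∧ ¬ ComputablePred P ∧ (∀ m, q0 ∈ W m) ∧ ∀ m, Til (W m) q0 ↔ ¬ P m := by
  classical
  obtain ⟨Λ, i1, i2, M, hM⟩ := Erode.exists_machine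
  have fG : Finite (TM2to1.Γ' PartrecToTM2.K' (fun _ => PartrecToTM2.Γ')) := by
    have fK : Finite PartrecToTM2.K' := by
      refine Finite.of_injective (fun k : PartrecToTM2.K' => match k with
        | .main => (0 : Fin 4) | .rev => 1 | .aux => 2 | .stack => 3) ?_
      intro a b h
      cases a <;> cases b <;> simp_all
    exact inferInstanceAs (Finite (Bool × (PartrecToTM2.K' → Option PartrecToTM2.Γ')))
  obtain ⟨a, ⟨eG⟩⟩ := Finite.exists_equiv_fin
    (TM2to1.Γ' PartrecToTM2.K' (fun _ => PartrecToTM2.Γ'))
  obtain ⟨b, ⟨eL⟩⟩ := Finite.exists_equiv_fin Λ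
  obtain ⟨cst, hcst⟩ := exists_cst eG eL M (Erode.sym true .cons)
  let lm : ℕ → List (TM2to1.Γ' PartrecToTM2.K' (fun _ => PartrecToTM2.Γ')) := fun m =>
    Erode.sym true .cons :: (PartrecToTM2.trNat m).reverse.map (Erode.sym false)
  let lw : ℕ → List ℕ := fun m => (lm m).map (fun x => cv eG eL (.sy x))
  have hlw : Computable lw := by
    have h1 := Erode.digits_computable (fun x => cv eG eL (.sy (Erode.sym false x)))
    have h2 := Primrec.list_reverse.to_comp.comp h1
    have h3 : Computable (fun v : List ℕ => cv eG eL (.sy (Erode.sym true .cons)) :: v) :=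
      (Primrec.list_cons.comp (Primrec.const _) Primrec.id).to_comp
    refine (h3.comp h2).of_eq ?_
    intro m
    simp only [lw, lm, List.map_cons, List.map_reverse, List.map_map]
    rfl
  let W : ℕ → List (ℕ × ℕ × ℕ × ℕ) := fun m => allW cst b (cv eG eL (.sy default)) (lw m)
  have hW : ∀ m t, t ∈ W m ↔ ∃ e n w s, WT M (lm m) e n w s ∧ t = cd eG eL e n w s :=
    fun m t => mem_allW eG eL M (Erode.sym true .cons) cst hcst (lm m) rfl (lw m) rfl t
  refine ⟨fun m => inner (W m), cd eG eL (some (.init 1)) (some (.hd default
    (Erode.sym true .cons))) (some (.init 0)) none, fun m => (Erode.u m).Dom, ?_,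
    Erode.u_not_computable, ?_, ?_⟩
  · exact inner_pr.to_comp.comp ((allW_pr cst b _).to_comp.comp hlw)
  · intro m
    exact (mem_inner eG eL M (lm m) (W m) (hW m) _).2 ⟨_, _, _, _, WT.first, rfl⟩
  · intro m
    change _ ↔ ¬ (Erode.u m).Dom
    rw [← hM m]
    have hlen : 0 < (lm m).length := by simp [lm]
    exact til_iff eG eL M (lm m) (W m) hlen (hW m)

end Pool.Agent.Q230.DLC
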